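import Pool.Agent.K9h71.RD.Asm

/-!
# Project RD (helper71): the theorem for randomised data
-/

set_option autoImplicit false

namespace Pool.Agent.K9h71.RD

open MeasureTheory ProbabilityTheory Pool.Agent.N303.LS
open scoped ENNReal FourierTransform RealInnerProductSpace SchwartzMap

lemma supp_box {d : ℕ} (φ : 𝓢(E d, ℂ)) (h : HasCompactSupport (φ : E d → ℂ)) :
    ∃ ρ : ℕ, ∀ ξ, φ ξ ≠ 0 → ∀ i, |ξ i| ≤ ρ := by
  obtain ⟨R, hR⟩ := h.isBounded.exists_norm_le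
  obtain ⟨ρ, hρ⟩ := exists_nat_ge R
  refine ⟨ρ, fun ξ hξ i => ?_⟩
  have h1 := hR ξ (subset_tsupport _ hξ)
  have h2 : |ξ i| ≤ ‖ξ‖ := by
    have := PiLp.norm_apply_le ξ i
    simpa using this
  linarith

/-- a first moment from a `p`-th moment -/
lemma mom1 {Ω : Type} [MeasurableSpace Ω] (P : Measure Ω) [IsProbabilityMeasure P] (p : ℝ)
    (hp : 2 ≤ p) (g : Ω → ℂ) (hg : Measurable g) (h : ∫⁻ ω, ‖g ω‖ₑ ^ p ∂P ≤ 1) :
    ∫⁻ ω, ‖g ω‖ₑ ∂P ≤ 1 := by
  have hp0 : 0 < p := by linarith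
  have h1 := eLpNorm'_le_eLpNorm'_of_exponent_le (μ := P) (f := g) (p := 1) (q := p) one_pos
    (by linarith) hg.aestronglyMeasurable
  unfold eLpNorm' at h1
  simp only [ENNReal.rpow_one, div_one] at h1
  refine h1.trans ?_
  calc (∫⁻ ω, ‖g ω‖ₑ ^ p ∂P) ^ (1 / p) ≤ 1 ^ (1 / p) := ENNReal.rpow_le_rpow h (by positivity)
    _ = 1 := ENNReal.one_rpow _

theorem main (hEN : S_EN) (hYOU : S_YOU) (hLLV : S_LLV) (hLPS : S_LPS) (hBP : S_BP) (hMZ : S_MZ)
    (d : ℕ) (p θ s : ℝ) (hp : 2 ≤ p) (hθ : 0 ≤ θ) (hs : θ < s) (φ : 𝓢(E d, ℂ))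
    (hφ : HasCompactSupport (φ : E d → ℂ)) :
    ∃ C : ℝ, 0 < C ∧ ∀ (b : (Fin d → ℤ) → ℕ) (A : ℝ), 0 ≤ A →
    (∀ n R : ℕ, 1 ≤ R → LamSet p (A * (R : ℝ) ^ θ) {m | b m = n ∧ ∀ i, |m i| < R}) →
    ∀ (Ω : Type) (_ : MeasurableSpace Ω) (P : Measure Ω), IsProbabilityMeasure P →
    ∀ g : ℕ → Ω → ℂ, (∀ n, Measurable (g n)) → iIndepFun g P → (∀ n, ∫ ω, g n ω ∂P = 0) →
    (∀ n, ∫⁻ ω, ‖g n ω‖ₑ ^ p ∂P ≤ 1) →
    ∀ (u₀ u₁ : 𝓢(E d, ℂ)) (t : ℝ), 0 ≤ t → t ≤ 2 →
      ∫⁻ ω, (∫⁻ x : E d, ‖wave (fun ξ => rmul φ b (fun n => g n ω) ξ * 𝓕 (u₀ : E d → ℂ) ξ)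
        (fun ξ => rmul φ b (fun n => g n ω) ξ * 𝓕 (u₁ : E d → ℂ) ξ) t x‖ₑ ^ p) ∂P ≤
        ENNReal.ofReal (C * A ^ p) *
          ((∫⁻ x : E d, ‖inv (fun ξ => bes s ξ * 𝓕 (u₀ : E d → ℂ) ξ) x‖ₑ ^ p) +
            ∫⁻ x : E d, ‖inv (fun ξ => bes (s - 1) ξ * 𝓕 (u₁ : E d → ℂ) ξ) x‖ₑ ^ p) := by
  classical
  obtain ⟨ρ, hρ⟩ := supp_box φ hφ
  set K : 𝓢(E d, ℂ) := 𝓕⁻ φ with hKd
  have hK : ∀ ξ, 𝓕 (K : E d → ℂ) ξ = φ ξ := fun ξ => by
    rw [← SchwartzMap.fourier_coe, hKd, FourierTransform.fourier_fourierInv_eq]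
  obtain ⟨C4, hC4, h4⟩ := fin4v hEN hYOU hLLV d p hp K
  obtain ⟨Cm, hCm, hmz⟩ := mean_sq hMZ p hp
  have hp0 : 0 < p := by linarith
  set s' : ℝ := (θ + s) / 2 with hs'
  have a1 : θ < s' := by rw [hs']; linarith
  have a2 : s' < s := by rw [hs']; linarith
  have a4 : 0 < s' := by linarith
  obtain ⟨χ, χtg, χ1, hχ⟩ := hLPS d s' a4
  obtain ⟨C5, hC5, h5⟩ := hχ p (by linarith)
  obtain ⟨B0, hB0, b0⟩ := (hBP d (s - s') p (by linarith)).1 (by linarith)
  obtain ⟨B1, hB1, b1⟩ := (hBP d (1 + (s - s')) p (by linarith)).1 (by linarith)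
  choose B2 hB2 b2 using (hBP d (1 + (s - s')) p (by linarith)).2 (by linarith)
  obtain ⟨B3, hB3, b3⟩ := (hBP d s' p (by linarith)).1 a4
  set D : ℝ := B0 + B1 + ∑ j, B2 j with hD
  have hsum : 0 ≤ ∑ j, B2 j := Finset.sum_nonneg fun j _ => (hB2 j).le
  have hDpos : 0 < D := by positivity
  set r : ℝ := (2 : ℝ) ^ (-s' * p) with hr
  have hr0 : 0 < r := by positivity
  have hr1 : r ≤ 1 := by
    rw [hr]
    refine Real.rpow_le_one_of_one_le_of_nonpos (by norm_num) ?_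
    nlinarith
  set C7 : ℝ := B3 * (r ^ (4 * ρ))⁻¹ + C5 * r⁻¹ with hC7
  have hC70 : 0 < C7 := by positivity
  set q : ℝ := (2 : ℝ) ^ (θ - s') with hq
  have hq0 : 0 < q := by positivity
  have hq1 : q < 1 := Real.rpow_lt_one_of_one_lt_of_neg (by norm_num) (by linarith)
  set G0 : ℝ := Cm * (C4 * ((d : ℝ) + 2) * C7 * D) with hG0
  have hG00 : 0 < G0 := by positivity
  have h1q : 0 < 1 - q := by linarith
  refine ⟨G0 / (1 - q) ^ p, by positivity, ?_⟩
  intro b A hA hS Ω _ P _ g hgm hgi hg0 hg1 u₀ u₁ t ht0 ht2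
  obtain ⟨F₀, F₁, hh, hF0x, hF1x, hh0, hh1, hhj, e0, e1⟩ := data s s' u₀ u₁
  set X := ∫⁻ x : E d, ‖F₀ x‖ₑ ^ p with hX
  set Z := ∫⁻ x : E d, ‖F₁ x‖ₑ ^ p with hZ
  -- the norms of the generators
  have hhb : ∀ k, ∫⁻ x : E d, ‖hh k x‖ₑ ^ p ≤ ENNReal.ofReal D * (X + Z) := by
    intro k
    have hB2le : ∀ j, B2 j ≤ ∑ j, B2 j := fun j =>
      Finset.single_le_sum (f := B2) (fun i _ => (hB2 i).le) (Finset.mem_univ j)
    match k with
    | Sum.inr true =>
      simp only [hh0]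
      refine (b0 F₀).trans ?_
      gcongr
      · rw [hD]; linarith
      · exact le_self_add
    | Sum.inr false =>
      simp only [hh1]
      refine (b1 F₁).trans ?_
      gcongr
      · rw [hD]; linarith
      · exact le_add_self
    | Sum.inl j =>
      simp only [hhj]
      refine (b2 j (-F₁)).trans ?_
      have e : ∫⁻ x : E d, ‖(-F₁ : 𝓢(E d, ℂ)) x‖ₑ ^ p = Z := by
        rw [hZ]
        refine lintegral_congr fun x => ?_
        rw [neg_apply, enorm_neg]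
      rw [e]
      gcongr
      · rw [hD]; linarith [hB2le j]
      · exact le_add_self
  -- the localised generators
  have hpg : ∀ c : ℕ, ∃ pg : Fin d ⊕ Bool → 𝓢(E d, ℂ),
      (∀ k ξ, 𝓕 (pg k : E d → ℂ) ξ = cutc (4 * ρ) χ c ξ * (bes (-s') ξ * 𝓕 (hh k : E d → ℂ) ξ)) ∧
      ∀ k, ∫⁻ x : E d, ‖pg k x‖ₑ ^ p ≤ ENNReal.ofReal (C7 * r ^ c) *
        ∫⁻ x : E d, ‖hh k x‖ₑ ^ p := by
    intro c
    by_cases hc : c ≤ 4 * ρ
    · choose pg p1 p2 using fun k => mult (bes (-s')) (bes_tg _) (hh k)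
      refine ⟨pg, fun k ξ => ?_, fun k => ?_⟩
      · rw [p1]
        unfold cutc
        rw [if_pos hc, one_mul]
      · simp only [p2]
        refine (b3 (hh k)).trans ?_
        gcongr
        rw [hC7, add_mul]
        have n1 : 1 ≤ (r ^ (4 * ρ))⁻¹ * r ^ c := by
          rw [inv_mul_eq_div, one_le_div (by positivity)]
          exact pow_le_pow_of_le_one hr0.le hr1 hc
        have n2 : 0 ≤ C5 * r⁻¹ * r ^ c := by positivity
        have n3 : B3 * 1 ≤ B3 * ((r ^ (4 * ρ))⁻¹ * r ^ c) := mul_le_mul_of_nonneg_left n1 hB3.le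
        rw [mul_one] at n3
        rw [mul_assoc]
        linarith
    · obtain ⟨k', rfl⟩ : ∃ k', c = k' + 1 := ⟨c - 1, by omega⟩
      choose pg p1 p2 using fun k => mult (fun ξ => χ k' ξ * bes (-s') ξ)
        ((χtg k').mul (bes_tg _)) (hh k)
      refine ⟨pg, fun k ξ => ?_, fun k => ?_⟩
      · rw [p1]
        unfold cutc
        rw [if_neg hc]
        show _ = χ (k' + 1 - 1) ξ * _
        rw [Nat.add_sub_cancel]
        ring
      · refine (h5 k' (hh k) (pg k) fun ξ => by rw [p1]; ring).trans ?_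
        refine mul_le_mul_left (ENNReal.ofReal_le_ofReal ?_) _
        rw [hC7, pow_succ]
        have e : (B3 * (r ^ (4 * ρ))⁻¹ + C5 * r⁻¹) * (r ^ k' * r) =
            B3 * (r ^ (4 * ρ))⁻¹ * (r ^ k' * r) + C5 * r ^ k' := by
          field_simp
        rw [e]
        have : 0 ≤ B3 * (r ^ (4 * ρ))⁻¹ * (r ^ k' * r) := by positivity
        linarith
  choose pg pg1 pg2 using hpg
  -- the shells
  set v : ℕ → ℕ → E d → ℂ := fun c n x => wave
    (fun ξ => psia K (cb b c n) (fun _ => 1) ξ * 𝓕 (u₀ : E d → ℂ) ξ)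
    (fun ξ => psia K (cb b c n) (fun _ => 1) ξ * 𝓕 (u₁ : E d → ℂ) ξ) t x with hv
  have hvi : ∀ c n, Integrable fun ξ =>
      cs t ξ * (psia K (cb b c n) (fun _ => 1) ξ * 𝓕 (u₀ : E d → ℂ) ξ) +
      sn t ξ * (psia K (cb b c n) (fun _ => 1) ξ * 𝓕 (u₁ : E d → ℂ) ξ) := fun c n =>
    wint t ht0 ht2 _ _ (psia_int K _ _ _ (four_int u₀)) (psia_int K _ _ _ (four_int u₁))
  have hvc : ∀ c n, Continuous (v c n) := fun c n => inv_cont _ (hvi c n)
  set w : ℕ → Ω × E d → ℂ := fun c z =>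
    ∑ n ∈ (cl Set.univ c).image b, g n z.1 * v c n z.2 with hw
  have hwm : ∀ c, Measurable (w c) := fun c =>
    Finset.measurable_sum _ fun n _ =>
      ((hgm n).comp measurable_fst).mul ((hvc c n).measurable.comp measurable_snd)
  have hwb : ∀ c, ∫⁻ z, ‖w c z‖ₑ ^ p ∂(P.prod volume) ≤
      ENNReal.ofReal ((G0 ^ (1 / p) * A) ^ p * (q ^ p) ^ c) * (X + Z) := by
    intro c
    rw [lintegral_prod _ (((hwm c).enorm.pow_const p).aemeasurable)]
    refine (hmz d Ω _ P inferInstance g hgm hgi hg0 hg1 ((cl Set.univ c).image b) (v c)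
      (hvc c)).trans ?_
    set f₁ : 𝓢(E d, ℂ) := pg c (Sum.inr false) + ∑ j, LineDeriv.lineDerivOp
      (EuclideanSpace.single j (1 : ℝ)) (pg c (Sum.inl j)) with hf₁
    have hsl := sum_line (pg c (Sum.inr false)) (fun j => pg c (Sum.inl j))
    have hLam : ∀ n, Lam p (A * (((2 ^ c : ℕ) : ℝ)) ^ θ) (cb b c n) (fun _ => 1) := by
      intro n y
      have h := hS n (2 ^ c) Nat.one_le_two_pow (cb b c n) (by
        intro m hm
        have hm' : m ∈ cb b c n := hm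
        unfold cb at hm'
        rw [Finset.mem_filter, mem_cl] at hm'
        refine ⟨hm'.2, fun i => ?_⟩
        have := abs_lt_of_size m c hm'.1.2 i
        push_cast
        exact this) y
      simpa only [one_mul] using h
    have hb := h4 ((cl Set.univ c).image b) (cb b c) (fun _ => 1) _ (cb_disj b c) (by positivity)
      hLam (pg c (Sum.inr true)) f₁
      (pg c (Sum.inr false)) (fun j => pg c (Sum.inl j)) hsl t ht0 ht2
    have ef0 : ∀ n, (fun ξ => psia K (cb b c n) (fun _ => 1) ξ *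
        𝓕 (pg c (Sum.inr true) : E d → ℂ) ξ) =
        fun ξ => psia K (cb b c n) (fun _ => 1) ξ * 𝓕 (u₀ : E d → ℂ) ξ := by
      intro n
      funext ξ
      rw [pg1, ← e0]
      exact cutc_mul K φ hK ρ hρ χ χ1 b c n ξ _
    have ef1 : ∀ n, (fun ξ => psia K (cb b c n) (fun _ => 1) ξ * 𝓕 (f₁ : E d → ℂ) ξ) =
        fun ξ => psia K (cb b c n) (fun _ => 1) ξ * 𝓕 (u₁ : E d → ℂ) ξ := by
      intro n
      funext ξ
      have e2 : 𝓕 (f₁ : E d → ℂ) ξ = cutc (4 * ρ) χ c ξ * 𝓕 (u₁ : E d → ℂ) ξ := by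
        rw [fourier_gen f₁ (pg c (Sum.inr false)) (fun j => pg c (Sum.inl j)) hsl ξ]
        simp only [pg1]
        rw [e1 ξ, mul_add, Finset.mul_sum]
        congr 1
        refine Finset.sum_congr rfl fun j _ => ?_
        ring
      rw [e2]
      exact cutc_mul K φ hK ρ hρ χ χ1 b c n ξ _
    simp only [ef0, ef1] at hb
    have hone : ∀ k, ∫⁻ x : E d, ‖pg c k x‖ₑ ^ p ≤ ENNReal.ofReal (C7 * r ^ c * D) * (X + Z) := by
      intro k
      refine (pg2 c k).trans ?_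
      calc ENNReal.ofReal (C7 * r ^ c) * ∫⁻ x : E d, ‖hh k x‖ₑ ^ p ≤
          ENNReal.ofReal (C7 * r ^ c) * (ENNReal.ofReal D * (X + Z)) := by
            gcongr
            exact hhb k
        _ = _ := by
          rw [← mul_assoc, ← ENNReal.ofReal_mul (by positivity)]
    calc ENNReal.ofReal Cm * ∫⁻ x : E d, (∑ n ∈ (cl Set.univ c).image b,
            ‖v c n x‖ₑ ^ (2 : ℝ)) ^ (p / 2) ≤
        ENNReal.ofReal Cm * (ENNReal.ofReal (C4 * (A * (((2 ^ c : ℕ) : ℝ)) ^ θ) ^ p) *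
          ((∫⁻ x : E d, ‖pg c (Sum.inr true) x‖ₑ ^ p) + (∫⁻ x : E d, ‖pg c (Sum.inr false) x‖ₑ ^ p) +
            ∑ j, ∫⁻ x : E d, ‖pg c (Sum.inl j) x‖ₑ ^ p)) := mul_le_mul' le_rfl hb
      _ ≤ ENNReal.ofReal Cm * (ENNReal.ofReal (C4 * (A * (((2 ^ c : ℕ) : ℝ)) ^ θ) ^ p) *
          (ENNReal.ofReal (C7 * r ^ c * D) * (X + Z) + ENNReal.ofReal (C7 * r ^ c * D) * (X + Z) +
            ∑ _j : Fin d, ENNReal.ofReal (C7 * r ^ c * D) * (X + Z))) := by
          gcongr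
          · exact hone _
          · exact hone _
          · exact hone _
      _ = ENNReal.ofReal Cm * (ENNReal.ofReal (C4 * (A * (((2 ^ c : ℕ) : ℝ)) ^ θ) ^ p) *
          (ENNReal.ofReal ((d : ℝ) + 2) * (ENNReal.ofReal (C7 * r ^ c * D) * (X + Z)))) := by
          congr 2
          rw [Finset.sum_const, Finset.card_univ, Fintype.card_fin, nsmul_eq_mul,
            ENNReal.ofReal_add (by positivity) (by norm_num), ENNReal.ofReal_natCast,
            ENNReal.ofReal_ofNat]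
          ring
      _ = _ := by
          rw [← mul_assoc, ← mul_assoc, ← mul_assoc, ← ENNReal.ofReal_mul (by positivity),
            ← ENNReal.ofReal_mul (by positivity), ← ENNReal.ofReal_mul (by positivity)]
          congr 2
          have z1 : (A * (((2 ^ c : ℕ) : ℝ)) ^ θ) ^ p = A ^ p * ((2 : ℝ) ^ (θ * p)) ^ c := by
            rw [Real.mul_rpow hA (by positivity)]
            congr 1
            push_cast
            rw [← Real.rpow_natCast 2 c, ← Real.rpow_mul (by norm_num),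
              ← Real.rpow_mul (by norm_num), ← Real.rpow_natCast ((2 : ℝ) ^ (θ * p)) c,
              ← Real.rpow_mul (by norm_num)]
            congr 1
            ring
          have z2 : (G0 ^ (1 / p) * A) ^ p = G0 * A ^ p := by
            rw [Real.mul_rpow (by positivity) hA, ← Real.rpow_mul hG00.le,
              one_div_mul_cancel hp0.ne', Real.rpow_one]
          have z3 : (q ^ p) ^ c = ((2 : ℝ) ^ (θ * p)) ^ c * r ^ c := by
            rw [← mul_pow]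
            congr 1
            rw [hq, hr, ← Real.rpow_mul (by norm_num), ← Real.rpow_add (by norm_num)]
            congr 1
            ring
          rw [z1, z2, z3, hG0]
          ring
  have hN := fun N => geoV (P.prod volume) p (by linarith) w
    (fun c => (hwm c).aestronglyMeasurable) (G0 ^ (1 / p) * A) q (by positivity) hq0.le hq1
    (X + Z) hwb N
  -- the partial sums
  set wN : ℕ → Ω × E d → ℂ := fun N z => ∑ c ∈ Finset.range N, w c z with hwN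
  have hwNm : ∀ N, Measurable (wN N) := fun N => Finset.measurable_sum _ fun c _ => hwm c
  have hrNi : ∀ N ω (f : 𝓢(E d, ℂ)), Integrable fun ξ =>
      rN φ b (fun n => g n ω) N ξ * 𝓕 (f : E d → ℂ) ξ := by
    intro N ω f
    have e : (fun ξ => rN φ b (fun n => g n ω) N ξ * 𝓕 (f : E d → ℂ) ξ) =
        fun ξ => ∑ c ∈ Finset.range N, ∑ n ∈ (cl Set.univ c).image b,
          g n ω * (psia K (cb b c n) (fun _ => 1) ξ * 𝓕 (f : E d → ℂ) ξ) := by
      funext ξ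
      rw [rN_eq K φ hK, Finset.sum_mul]
      refine Finset.sum_congr rfl fun c _ => ?_
      rw [Finset.sum_mul]
      refine Finset.sum_congr rfl fun n _ => ?_
      ring
    rw [e]
    exact integrable_finset_sum _ fun c _ => integrable_finset_sum _ fun n _ =>
      (psia_int K _ _ _ (four_int f)).const_mul _
  have hPs : ∀ N ω x, wN N (ω, x) =
      inv (fun ξ => cs t ξ * (rN φ b (fun n => g n ω) N ξ * 𝓕 (u₀ : E d → ℂ) ξ) +
        sn t ξ * (rN φ b (fun n => g n ω) N ξ * 𝓕 (u₁ : E d → ℂ) ξ)) x := by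
    intro N ω x
    have e : (fun ξ => cs t ξ * (rN φ b (fun n => g n ω) N ξ * 𝓕 (u₀ : E d → ℂ) ξ) +
        sn t ξ * (rN φ b (fun n => g n ω) N ξ * 𝓕 (u₁ : E d → ℂ) ξ)) =
        fun ξ => ∑ c ∈ Finset.range N, ∑ n ∈ (cl Set.univ c).image b, g n ω *
        (cs t ξ * (psia K (cb b c n) (fun _ => 1) ξ * 𝓕 (u₀ : E d → ℂ) ξ) +
      sn t ξ * (psia K (cb b c n) (fun _ => 1) ξ * 𝓕 (u₁ : E d → ℂ) ξ)) := by
      funext ξ
      rw [rN_eq K φ hK, Finset.sum_mul, Finset.sum_mul, Finset.mul_sum, Finset.mul_sum,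
        ← Finset.sum_add_distrib]
      refine Finset.sum_congr rfl fun c _ => ?_
      rw [Finset.sum_mul, Finset.sum_mul, Finset.mul_sum, Finset.mul_sum,
        ← Finset.sum_add_distrib]
      refine Finset.sum_congr rfl fun n _ => ?_
      ring
    rw [e, inv_sum _ _ fun c _ => integrable_finset_sum _ fun n _ => (hvi c n).const_mul _]
    simp only [hwN, hw]
    refine Finset.sum_congr rfl fun c _ => ?_
    rw [inv_sum _ _ fun n _ => (hvi c n).const_mul _]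
    refine Finset.sum_congr rfl fun n _ => ?_
    simp only [hv]
    unfold wave inv
    rw [← integral_const_mul]
    refine integral_congr_ae (Filter.Eventually.of_forall fun ξ => ?_)
    show g n ω * (_ * _) = _ * (g n ω * _)
    ring
  have hcs : ∀ ξ : E d, ‖cs t ξ‖ ≤ 2 := fun ξ => sym_le (Sum.inr true) t ht0 ht2 ξ
  have hsn : ∀ ξ : E d, ‖sn t ξ‖ ≤ 2 := fun ξ => sym_le (Sum.inr false) t ht0 ht2 ξ
  have hFc : ∀ f : 𝓢(E d, ℂ), Continuous (𝓕 (f : E d → ℂ)) := fun f => by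
    have h := (𝓕 f : 𝓢(E d, ℂ)).continuous
    rwa [SchwartzMap.fourier_coe] at h
  -- the limit
  have hH1 : ∀ f : 𝓢(E d, ℂ), ∀ᵐ ω ∂P, ∫⁻ ξ, maj φ b (fun n => g n ω) ξ *
      ‖𝓕 (f : E d → ℂ) ξ‖ₑ ≠ ⊤ := fun f =>
    maj_ae φ ρ hρ b P g hgm (fun n => mom1 P p hp _ (hgm n) (hg1 n)) _ (hFc f).measurable.enorm
      (four_int f).2.ne
  have hmajm : ∀ ω, Measurable fun ξ => maj φ b (fun n => g n ω) ξ := by
    intro ω
    unfold maj
    refine Measurable.ennreal_tsum fun m => ?_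
    refine Measurable.const_mul ?_ _
    exact (φ.continuous.comp (continuous_id.sub continuous_const)).measurable.enorm
  have hmi : ∀ ω (f : 𝓢(E d, ℂ)), ∫⁻ ξ, maj φ b (fun n => g n ω) ξ *
      ‖𝓕 (f : E d → ℂ) ξ‖ₑ ≠ ⊤ → Integrable fun ξ =>
      (maj φ b (fun n => g n ω) ξ).toReal * ‖𝓕 (f : E d → ℂ) ξ‖ := by
    intro ω f hf
    have h1 := integrable_toReal_of_lintegral_ne_top
      (((hmajm ω).mul (hFc f).measurable.enorm).aemeasurable) hf
    refine h1.congr (Filter.Eventually.of_forall fun ξ => ?_)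
    show (maj φ b (fun n => g n ω) ξ * ‖𝓕 (f : E d → ℂ) ξ‖ₑ).toReal = _
    rw [ENNReal.toReal_mul, toReal_enorm]
  have hbd : ∀ ω (f : 𝓢(E d, ℂ)) N ξ, ‖rN φ b (fun n => g n ω) N ξ * 𝓕 (f : E d → ℂ) ξ‖ ≤
      (maj φ b (fun n => g n ω) ξ).toReal * ‖𝓕 (f : E d → ℂ) ξ‖ := by
    intro ω f N ξ
    rw [norm_mul]
    refine mul_le_mul_of_nonneg_right ?_ (norm_nonneg _)
    rw [← toReal_enorm]
    exact ENNReal.toReal_mono (maj_top φ ρ hρ b _ ξ) (rN_maj φ b _ N ξ)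
  have hlim : ∀ᵐ ω ∂P, ∀ x, Filter.Tendsto (fun N => wN N (ω, x)) Filter.atTop
      (nhds (wave (fun ξ => rmul φ b (fun n => g n ω) ξ * 𝓕 (u₀ : E d → ℂ) ξ)
        (fun ξ => rmul φ b (fun n => g n ω) ξ * 𝓕 (u₁ : E d → ℂ) ξ) t x)) := by
    filter_upwards [hH1 u₀, hH1 u₁] with ω k0 k1 x
    simp only [hPs]
    unfold wave inv
    refine tendsto_integral_of_dominated_convergence
      (fun ξ => 2 * ((maj φ b (fun n => g n ω) ξ).toReal * ‖𝓕 (u₀ : E d → ℂ) ξ‖) +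
        2 * ((maj φ b (fun n => g n ω) ξ).toReal * ‖𝓕 (u₁ : E d → ℂ) ξ‖)) ?_ ?_ ?_ ?_
    · intro N
      refine AEStronglyMeasurable.mul ?_
        (wint t ht0 ht2 _ _ (hrNi N ω u₀) (hrNi N ω u₁)).1
      refine Continuous.aestronglyMeasurable ?_
      fun_prop
    · exact ((hmi ω u₀ k0).const_mul 2).add ((hmi ω u₁ k1).const_mul 2)
    · intro N
      refine Filter.Eventually.of_forall fun ξ => ?_
      rw [norm_mul, Complex.norm_exp_ofReal_mul_I, one_mul]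
      refine (norm_add_le _ _).trans (add_le_add ?_ ?_)
      · rw [norm_mul]
        exact mul_le_mul (hcs ξ) (hbd ω u₀ N ξ) (norm_nonneg _) (by norm_num)
      · rw [norm_mul]
        exact mul_le_mul (hsn ξ) (hbd ω u₁ N ξ) (norm_nonneg _) (by norm_num)
    · refine Filter.Eventually.of_forall fun ξ => ?_
      have h := rN_tendsto φ ρ hρ b (fun n => g n ω) ξ
      exact ((((h.mul_const _).const_mul _).add ((h.mul_const _).const_mul _)).const_mul _)
  have hpt : ∀ᵐ ω ∂P, ∫⁻ x : E d, ‖wave (fun ξ => rmul φ b (fun n => g n ω) ξ *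
        𝓕 (u₀ : E d → ℂ) ξ)
        (fun ξ => rmul φ b (fun n => g n ω) ξ * 𝓕 (u₁ : E d → ℂ) ξ) t x‖ₑ ^ p ≤
      Filter.liminf (fun N => ∫⁻ x : E d, ‖wN N (ω, x)‖ₑ ^ p) Filter.atTop := by
    filter_upwards [hlim] with ω hω
    have e : ∀ x, ‖wave (fun ξ => rmul φ b (fun n => g n ω) ξ *
        𝓕 (u₀ : E d → ℂ) ξ)
        (fun ξ => rmul φ b (fun n => g n ω) ξ * 𝓕 (u₁ : E d → ℂ) ξ) t x‖ₑ ^ p =
        Filter.liminf (fun N => ‖wN N (ω, x)‖ₑ ^ p) Filter.atTop := by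
      intro x
      have h1 := ((continuous_enorm.tendsto _).comp (hω x))
      have h2 := (ENNReal.continuous_rpow_const (y := p)).tendsto
        (‖wave (fun ξ => rmul φ b (fun n => g n ω) ξ *
        𝓕 (u₀ : E d → ℂ) ξ)
        (fun ξ => rmul φ b (fun n => g n ω) ξ * 𝓕 (u₁ : E d → ℂ) ξ) t x‖ₑ)
      exact ((h2.comp h1).liminf_eq).symm
    rw [lintegral_congr e]
    exact lintegral_liminf_le fun N =>
      (((hwNm N).comp (measurable_const.prodMk measurable_id)).enorm.pow_const p)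
  refine (lintegral_mono_ae hpt).trans ?_
  refine (lintegral_liminf_le fun N => Measurable.lintegral_prod_right'
    (f := fun z : Ω × E d => ‖wN N z‖ₑ ^ p) ((hwNm N).enorm.pow_const p)).trans ?_
  have hfin : ∀ N, ∫⁻ ω, (∫⁻ x : E d, ‖wN N (ω, x)‖ₑ ^ p) ∂P ≤
      ENNReal.ofReal ((G0 ^ (1 / p) * A / (1 - q)) ^ p) * (X + Z) := by
    intro N
    rw [← lintegral_prod (fun z : Ω × E d => ‖wN N z‖ₑ ^ p)
      (((hwNm N).enorm.pow_const p).aemeasurable)]
    exact hN N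
  refine (Filter.liminf_le_liminf (Filter.Eventually.of_forall hfin)).trans ?_
  rw [Filter.liminf_const]
  simp only [← hF0x, ← hF1x]
  refine le_of_eq ?_
  congr 2
  rw [Real.div_rpow (by positivity) h1q.le, Real.mul_rpow (by positivity) hA,
    ← Real.rpow_mul hG00.le, one_div_mul_cancel hp0.ne', Real.rpow_one]
  ring

end Pool.Agent.K9h71.RD
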