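import Pool.Agent.K9h71.RD.F4

/-!
# Project RD (helper71): the theorem for randomised data
-/

set_option autoImplicit false

namespace Pool.Agent.K9h71.RD

open MeasureTheory ProbabilityTheory Pool.Agent.N303.LS
open scoped ENNReal FourierTransform RealInnerProductSpace SchwartzMap

/-- the symbol `∑_m g_{b(m)} φ(ξ - m)` -/
noncomputable def rmul {d : ℕ} (φ : 𝓢(E d, ℂ)) (b : (Fin d → ℤ) → ℕ) (g : ℕ → ℂ) (ξ : E d) : ℂ :=
  ∑' m : Fin d → ℤ, g (b m) * φ (ξ - pt m)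

/-- the points of the block `n` in the shell `c` -/
noncomputable def cb {d : ℕ} (b : (Fin d → ℤ) → ℕ) (c n : ℕ) : Finset (Fin d → ℤ) :=
  (cl Set.univ c).filter fun m => b m = n

lemma cb_disj {d : ℕ} (b : (Fin d → ℤ) → ℕ) (c : ℕ) (i j : ℕ) (h : i ≠ j) :
    Disjoint (cb b c i) (cb b c j) := by
  rw [Finset.disjoint_left]
  intro m hi hj
  unfold cb at hi hj
  rw [Finset.mem_filter] at hi hj
  exact h (hi.2.symm.trans hj.2)

lemma shell' {d : ℕ} (m : Fin d → ℤ) (k : ℕ) (h : Nat.size (nm m) = k + 1) (ρ : ℝ)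
    (hρ : 4 * ρ ≤ 2 ^ k) (ξ : E d)
    (hξ : ∀ i, |ξ i - m i| ≤ ρ) :
    (∃ i, (2 : ℝ) ^ k * (3 / 4) ≤ |ξ i|) ∧ ∀ i, |ξ i| ≤ (2 : ℝ) ^ k * (9 / 4) := by
  have hk : (1 : ℝ) ≤ 2 ^ k := one_le_pow₀ (by norm_num)
  constructor
  · have h1 : 2 ^ k ≤ nm m := Nat.lt_size.1 (by omega)
    obtain ⟨i, hi⟩ : ∃ i, 2 ^ k ≤ (m i).natAbs := by
      by_contra hcon
      push Not at hcon
      have h2 : nm m < 2 ^ k := by
        unfold nm
        rw [Finset.sup_lt_iff (by positivity)]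
        exact fun i _ => hcon i
      omega
    refine ⟨i, ?_⟩
    have h3 : (2 : ℝ) ^ k ≤ |(m i : ℝ)| := by
      have : ((2 ^ k : ℕ) : ℤ) ≤ |m i| := by
        rw [Int.abs_eq_natAbs]
        exact_mod_cast hi
      exact_mod_cast this
    have h4 := hξ i
    have h5 : |(m i : ℝ)| ≤ |ξ i| + |ξ i - m i| := by
      have : (m i : ℝ) = ξ i - (ξ i - m i) := by ring
      calc |(m i : ℝ)| = |ξ i - (ξ i - m i)| := by rw [← this]
        _ ≤ _ := abs_sub _ _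
    nlinarith
  · intro i
    have h1 := abs_lt_of_size m (k + 1) h i
    have h2 : |(m i : ℝ)| < 2 ^ (k + 1) := by exact_mod_cast h1
    have h4 := hξ i
    have h5 : |ξ i| ≤ |(m i : ℝ)| + |ξ i - m i| := by
      have : ξ i = (m i : ℝ) + (ξ i - m i) := by ring
      calc |ξ i| = |(m i : ℝ) + (ξ i - m i)| := by rw [← this]
        _ ≤ _ := abs_add_le _ _
    rw [pow_succ] at h2
    nlinarith

/-- the cut-offs -/
noncomputable def cutc {d : ℕ} (c₀ : ℕ) (χ : ℕ → E d → ℂ) (c : ℕ) : E d → ℂ :=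
  if c ≤ c₀ then fun _ => 1 else χ (c - 1)

lemma psia_one' {d : ℕ} (K φ : 𝓢(E d, ℂ)) (hK : ∀ ξ, 𝓕 (K : E d → ℂ) ξ = φ ξ)
    (S : Finset (Fin d → ℤ)) (ξ : E d) :
    psia K S (fun _ => 1) ξ = ∑ m ∈ S, φ (ξ - pt m) := by
  unfold psia
  refine Finset.sum_congr rfl fun m _ => ?_
  rw [one_mul, hK]

lemma cutc_mul {d : ℕ} (K φ : 𝓢(E d, ℂ)) (hK : ∀ ξ, 𝓕 (K : E d → ℂ) ξ = φ ξ) (ρ : ℕ)
    (hρ : ∀ ξ, φ ξ ≠ 0 → ∀ i, |ξ i| ≤ ρ) (χ : ℕ → E d → ℂ)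
    (χ1 : ∀ (k : ℕ) (ξ : E d), (∃ i, (2 : ℝ) ^ k * (3 / 4) ≤ |ξ i|) →
      (∀ i, |ξ i| ≤ (2 : ℝ) ^ k * (9 / 4)) → χ k ξ = 1) (b : (Fin d → ℤ) → ℕ) (c n : ℕ)
    (ξ : E d) (z : ℂ) :
    psia K (cb b c n) (fun _ => 1) ξ * (cutc (4 * ρ) χ c ξ * z) =
      psia K (cb b c n) (fun _ => 1) ξ * z := by
  by_cases hc : c ≤ 4 * ρ
  · unfold cutc
    rw [if_pos hc, one_mul]
  · by_cases hz : psia K (cb b c n) (fun _ => 1) ξ = 0
    · rw [hz, zero_mul, zero_mul]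
    · congr 1
      have hz' := hz
      rw [psia_one' K φ hK] at hz'
      obtain ⟨m, hm, hm0⟩ := Finset.exists_ne_zero_of_sum_ne_zero hz'
      unfold cb at hm
      rw [Finset.mem_filter, mem_cl] at hm
      obtain ⟨k, rfl⟩ : ∃ k, c = k + 1 := ⟨c - 1, by omega⟩
      have h2 : 4 * (ρ : ℝ) ≤ 2 ^ k := by
        have h3 : 4 * ρ ≤ 2 ^ k := by
          have : k < 2 ^ k := Nat.lt_two_pow_self
          omega
        exact_mod_cast h3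
      have h3 := shell' m k hm.1.2 ρ h2 ξ (by
        intro i
        have := hρ _ hm0 i
        simpa [pt] using this)
      unfold cutc
      rw [if_neg hc]
      have e : χ (k + 1 - 1) ξ = 1 := χ1 k ξ h3.1 h3.2
      rw [e, one_mul]

/-- the points near `ξ` -/
noncomputable def near {d : ℕ} (ρ : ℕ) (ξ : E d) : Finset (Fin d → ℤ) :=
  Fintype.piFinset fun i => Finset.Icc (⌊ξ i⌋ - ρ) (⌊ξ i⌋ + 1 + ρ)

lemma near_card {d : ℕ} (ρ : ℕ) (ξ : E d) : (near ρ ξ).card = (2 * ρ + 2) ^ d := by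
  unfold near
  rw [Fintype.card_piFinset]
  have : ∀ i : Fin d, (Finset.Icc (⌊ξ i⌋ - (ρ : ℤ)) (⌊ξ i⌋ + 1 + ρ)).card = 2 * ρ + 2 := by
    intro i
    rw [Int.card_Icc]
    omega
  simp only [this]
  simp

lemma near_zero {d : ℕ} (φ : 𝓢(E d, ℂ)) (ρ : ℕ) (hρ : ∀ ξ, φ ξ ≠ 0 → ∀ i, |ξ i| ≤ ρ) (ξ : E d)
    (m : Fin d → ℤ) (hm : m ∉ near ρ ξ) : φ (ξ - pt m) = 0 := by
  by_contra h
  apply hm
  unfold near
  rw [Fintype.mem_piFinset]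
  intro i
  have h1 := hρ _ h i
  have h2 : (ξ - pt m) i = ξ i - m i := by simp [pt]
  rw [h2, abs_le] at h1
  rw [Finset.mem_Icc]
  have h3 := Int.floor_le (ξ i)
  have h4 := Int.lt_floor_add_one (ξ i)
  constructor
  · have : (⌊ξ i⌋ : ℝ) - ρ ≤ m i := by linarith [h1.2]
    exact_mod_cast this
  · have : (m i : ℝ) ≤ ⌊ξ i⌋ + 1 + ρ := by linarith [h1.1]
    exact_mod_cast this

lemma bd_phi {d : ℕ} (φ : 𝓢(E d, ℂ)) : ∃ B : ℝ, 0 ≤ B ∧ ∀ ξ, ‖φ ξ‖ ≤ B :=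
  ⟨SchwartzMap.seminorm ℝ 0 0 φ, apply_nonneg _ _, fun ξ => SchwartzMap.norm_le_seminorm ℝ φ ξ⟩

lemma tsum_bd {d : ℕ} (φ : 𝓢(E d, ℂ)) (ρ : ℕ) (hρ : ∀ ξ, φ ξ ≠ 0 → ∀ i, |ξ i| ≤ ρ) (B : ℝ)
    (hB : ∀ ξ, ‖φ ξ‖ ≤ B) (ξ : E d) :
    ∑' m : Fin d → ℤ, ‖φ (ξ - pt m)‖ₑ ≤ ((2 * ρ + 2) ^ d : ℕ) * ENNReal.ofReal B := by
  rw [tsum_eq_sum (s := near ρ ξ) fun m hm => by rw [near_zero φ ρ hρ ξ m hm, enorm_zero]]
  refine (Finset.sum_le_sum (g := fun _ => ENNReal.ofReal B) fun m _ => ?_).trans ?_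
  · rw [← ofReal_norm]
    exact ENNReal.ofReal_le_ofReal (hB _)
  · rw [Finset.sum_const, near_card, nsmul_eq_mul]

/-- the points of the shells `< N` -/
noncomputable def TN (d N : ℕ) : Finset (Fin d → ℤ) := by
  classical
  exact (Finset.range N).biUnion fun c => cl Set.univ c

lemma mem_TN {d : ℕ} (N : ℕ) (m : Fin d → ℤ) : m ∈ TN d N ↔ Nat.size (nm m) < N := by
  classical
  unfold TN
  rw [Finset.mem_biUnion]
  constructor
  · rintro ⟨c, hc, hm⟩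
    rw [mem_cl] at hm
    rw [Finset.mem_range] at hc
    omega
  · intro h
    exact ⟨Nat.size (nm m), Finset.mem_range.2 h, (mem_cl _ _ _).2 ⟨trivial, rfl⟩⟩

lemma TN_tendsto (d : ℕ) : Filter.Tendsto (TN d) Filter.atTop Filter.atTop := by
  refine Filter.tendsto_atTop_finset_of_monotone ?_ ?_
  · intro N N' h m hm
    rw [mem_TN] at hm ⊢
    omega
  · intro m
    exact ⟨Nat.size (nm m) + 1, (mem_TN _ _).2 (Nat.lt_succ_self _)⟩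

/-- the truncated symbols -/
noncomputable def rN {d : ℕ} (φ : 𝓢(E d, ℂ)) (b : (Fin d → ℤ) → ℕ) (g : ℕ → ℂ) (N : ℕ) (ξ : E d) :
    ℂ := ∑ m ∈ TN d N, g (b m) * φ (ξ - pt m)

lemma rN_eq {d : ℕ} (K φ : 𝓢(E d, ℂ)) (hK : ∀ ξ, 𝓕 (K : E d → ℂ) ξ = φ ξ) (b : (Fin d → ℤ) → ℕ)
    (g : ℕ → ℂ) (N : ℕ) (ξ : E d) :
    rN φ b g N ξ = ∑ c ∈ Finset.range N, ∑ n ∈ (cl Set.univ c).image b,
      g n * psia K (cb b c n) (fun _ => 1) ξ := by
  classical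
  unfold rN TN
  rw [Finset.sum_biUnion]
  · refine Finset.sum_congr rfl fun c _ => ?_
    rw [← Finset.sum_fiberwise_of_maps_to (s := cl Set.univ c) (t := (cl Set.univ c).image b)
      (g := b) (fun m hm => Finset.mem_image_of_mem b hm)]
    refine Finset.sum_congr rfl fun n _ => ?_
    rw [psia_one' K φ hK, Finset.mul_sum]
    unfold cb
    refine Finset.sum_congr (by congr) fun m hm => ?_
    rw [Finset.mem_filter] at hm
    rw [hm.2]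
  · intro c _ c' _ h
    rw [Function.onFun, Finset.disjoint_left]
    intro m h1 h2
    rw [mem_cl] at h1 h2
    exact h (h1.2.symm.trans h2.2)

lemma rN_tendsto {d : ℕ} (φ : 𝓢(E d, ℂ)) (ρ : ℕ) (hρ : ∀ ξ, φ ξ ≠ 0 → ∀ i, |ξ i| ≤ ρ)
    (b : (Fin d → ℤ) → ℕ) (g : ℕ → ℂ) (ξ : E d) :
    Filter.Tendsto (fun N => rN φ b g N ξ) Filter.atTop (nhds (rmul φ b g ξ)) := by
  have hs : Summable fun m : Fin d → ℤ => g (b m) * φ (ξ - pt m) :=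
    summable_of_ne_finset_zero (s := near ρ ξ) fun m hm => by
      rw [near_zero φ ρ hρ ξ m hm, mul_zero]
  exact hs.hasSum.comp (TN_tendsto d)

/-- the majorant -/
noncomputable def maj {d : ℕ} (φ : 𝓢(E d, ℂ)) (b : (Fin d → ℤ) → ℕ) (g : ℕ → ℂ) (ξ : E d) : ℝ≥0∞ :=
  ∑' m : Fin d → ℤ, ‖g (b m)‖ₑ * ‖φ (ξ - pt m)‖ₑ

lemma rN_maj {d : ℕ} (φ : 𝓢(E d, ℂ)) (b : (Fin d → ℤ) → ℕ) (g : ℕ → ℂ) (N : ℕ) (ξ : E d) :
    ‖rN φ b g N ξ‖ₑ ≤ maj φ b g ξ := by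
  unfold rN maj
  refine (enorm_sum_le _ _).trans ?_
  refine le_trans (le_of_eq ?_) (ENNReal.sum_le_tsum (TN d N))
  exact Finset.sum_congr rfl fun m _ => enorm_mul _ _

lemma maj_top {d : ℕ} (φ : 𝓢(E d, ℂ)) (ρ : ℕ) (hρ : ∀ ξ, φ ξ ≠ 0 → ∀ i, |ξ i| ≤ ρ)
    (b : (Fin d → ℤ) → ℕ) (g : ℕ → ℂ) (ξ : E d) : maj φ b g ξ ≠ ⊤ := by
  unfold maj
  rw [tsum_eq_sum (s := near ρ ξ) fun m hm => by
    rw [near_zero φ ρ hρ ξ m hm, enorm_zero, mul_zero]]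
  exact ENNReal.sum_ne_top.2 fun m _ => ENNReal.mul_ne_top enorm_ne_top enorm_ne_top

/-- almost surely the majorant is integrable against the data -/
lemma maj_ae {d : ℕ} (φ : 𝓢(E d, ℂ)) (ρ : ℕ) (hρ : ∀ ξ, φ ξ ≠ 0 → ∀ i, |ξ i| ≤ ρ)
    (b : (Fin d → ℤ) → ℕ) {Ω : Type} [MeasurableSpace Ω] (P : Measure Ω) [IsProbabilityMeasure P]
    (g : ℕ → Ω → ℂ) (hg : ∀ n, Measurable (g n)) (hg1 : ∀ n, ∫⁻ ω, ‖g n ω‖ₑ ∂P ≤ 1)
    (H : E d → ℝ≥0∞) (hH : Measurable H) (hHi : ∫⁻ ξ, H ξ ≠ ⊤) :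
    ∀ᵐ ω ∂P, ∫⁻ ξ, maj φ b (fun n => g n ω) ξ * H ξ ≠ ⊤ := by
  obtain ⟨B, hB0, hB⟩ := bd_phi φ
  have hm : Measurable fun z : Ω × E d => maj φ b (fun n => g n z.1) z.2 * H z.2 := by
    refine Measurable.mul ?_ (hH.comp measurable_snd)
    unfold maj
    refine Measurable.ennreal_tsum fun m => ?_
    refine Measurable.mul ((hg _).comp measurable_fst).enorm ?_
    exact ((φ.continuous.comp (continuous_id.sub continuous_const)).measurable.comp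
      measurable_snd).enorm
  have h1 : ∫⁻ ω, (∫⁻ ξ, maj φ b (fun n => g n ω) ξ * H ξ) ∂P ≤
      ((2 * ρ + 2) ^ d : ℕ) * ENNReal.ofReal B * ∫⁻ ξ, H ξ := by
    rw [lintegral_lintegral_swap hm.aemeasurable, ← lintegral_const_mul _ hH]
    refine lintegral_mono fun ξ => ?_
    rw [lintegral_mul_const _ (Measurable.of_uncurry_right
      (f := fun ω ξ => maj φ b (fun n => g n ω) ξ) (by
        unfold maj
        refine Measurable.ennreal_tsum fun m => ?_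
        refine Measurable.mul ((hg _).comp measurable_fst).enorm ?_
        exact ((φ.continuous.comp (continuous_id.sub continuous_const)).measurable.comp
          measurable_snd).enorm))]
    refine mul_le_mul' ?_ le_rfl
    unfold maj
    rw [lintegral_tsum fun m => ((hg _).enorm.mul_const _).aemeasurable]
    refine le_trans (ENNReal.tsum_le_tsum fun m => ?_) (tsum_bd φ ρ hρ B hB ξ)
    rw [lintegral_mul_const _ (hg _).enorm]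
    calc (∫⁻ ω, ‖g (b m) ω‖ₑ ∂P) * ‖φ (ξ - pt m)‖ₑ ≤ 1 * ‖φ (ξ - pt m)‖ₑ :=
          mul_le_mul' (hg1 _) le_rfl
      _ = _ := one_mul _
  have h2 : ∫⁻ ω, (∫⁻ ξ, maj φ b (fun n => g n ω) ξ * H ξ) ∂P ≠ ⊤ := by
    refine ne_top_of_le_ne_top ?_ h1
    exact ENNReal.mul_ne_top (ENNReal.mul_ne_top (ENNReal.natCast_ne_top _)
      ENNReal.ofReal_ne_top) hHi
  have h3 := ae_lt_top (f := fun ω => ∫⁻ ξ, maj φ b (fun n => g n ω) ξ * H ξ)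
    (Measurable.lintegral_prod_right' (f := fun z : Ω × E d =>
      maj φ b (fun n => g n z.1) z.2 * H z.2) hm) h2
  filter_upwards [h3] with ω h
  exact h.ne

end Pool.Agent.K9h71.RD
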