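import Pool.Agent.K9h71.RD.Stm
import Pool.Agent.N303.LS.Fin5
import Pool.Agent.N262.LS.LL

/-!
# Project RD (helper71): sets with few points are `Λ(p)` sets
-/

set_option autoImplicit false

namespace Pool.Agent.K9h71.RD

open MeasureTheory Pool.Agent.N303.LS Pool.Agent.N492.LS Pool.Agent.N262.LS
open scoped ENNReal FourierTransform RealInnerProductSpace SchwartzMap

theorem crd (d : ℕ) (p : ℝ) (hp : 2 ≤ p) (T : Finset (Fin d → ℤ)) (c : (Fin d → ℤ) → ℂ) :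
    ∫⁻ x in {x : E d | ∀ i, x i ∈ Set.Ico (0 : ℝ) 1}, ‖∑ m ∈ T, c m *
      Complex.exp (((2 * Real.pi * ⟪x, pt m⟫ : ℝ) : ℂ) * Complex.I)‖ₑ ^ p ≤
      ENNReal.ofReal (2 ^ d * (T.card : ℝ) ^ (p / 2 - 1)) *
        (∑ m ∈ T, ‖c m‖ₑ ^ (2 : ℝ)) ^ (p / 2) := by
  have hp0 : 0 < p := by linarith
  have hq : 0 ≤ p / 2 - 1 := by linarith
  obtain ⟨S2, hS2⟩ : ∃ S2 : ℝ≥0∞, S2 = ∑ m ∈ T, ‖c m‖ₑ ^ (2 : ℝ) := ⟨_, rfl⟩
  have hS2t : S2 ≠ ⊤ := by
    rw [hS2]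
    exact ENNReal.sum_ne_top.2 fun m _ => ENNReal.rpow_ne_top_of_nonneg (by norm_num) enorm_ne_top
  have e0 : ∀ x : E d, ∑ m ∈ T, c m *
      Complex.exp (((2 * Real.pi * ⟪x, pt m⟫ : ℝ) : ℂ) * Complex.I) = tp T c x := fun x => rfl
  simp only [e0]
  rw [← hS2]
  have h1 : ∀ x : E d, ‖tp T c x‖ₑ ^ (2 : ℝ) ≤ ENNReal.ofReal (T.card : ℝ) * S2 := by
    intro x
    have h := pow_sum 2 (by norm_num) T (fun m => c m * e ⟪x, pt m⟫)
    have e1 : ((T.card : ℝ)) ^ ((2 : ℝ) - 1) = (T.card : ℝ) := by norm_num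
    rw [e1] at h
    refine h.trans (le_of_eq ?_)
    rw [hS2]
    congr 1
    refine Finset.sum_congr rfl fun m _ => ?_
    rw [enorm_mul, enorm_e, mul_one]
  have h2 : ∀ x : E d, ‖tp T c x‖ₑ ^ p ≤
      (ENNReal.ofReal (T.card : ℝ) * S2) ^ (p / 2 - 1) * ‖tp T c x‖ₑ ^ (2 : ℝ) := by
    intro x
    have e1 : ‖tp T c x‖ₑ ^ p = (‖tp T c x‖ₑ ^ (2 : ℝ)) ^ (p / 2 - 1) * ‖tp T c x‖ₑ ^ (2 : ℝ) := by
      rw [← ENNReal.rpow_mul, ← ENNReal.rpow_add_of_nonneg _ _ (by positivity) (by norm_num)]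
      congr 1
      ring
    rw [e1]
    exact mul_le_mul' (ENNReal.rpow_le_rpow (h1 x) hq) le_rfl
  have hsub : {x : E d | ∀ i, x i ∈ Set.Ico (0 : ℝ) 1} ⊆ cu 1 (0 : E d) := by
    intro x hx i
    have h := hx i
    have e1 : x i - (0 : E d) i = x i := by simp
    rw [e1, abs_of_nonneg h.1]
    have := h.2.le
    simpa using this
  have h3 : ∫⁻ x in cu 1 (0 : E d), ‖tp T c x‖ₑ ^ (2 : ℝ) = ENNReal.ofReal (2 ^ d) * S2 := by
    rw [int_tp, ENNReal.ofReal_mul (by positivity), hS2]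
    congr 1
    · norm_num
    · rw [ENNReal.ofReal_sum_of_nonneg fun _ _ => by positivity]
      exact Finset.sum_congr rfl fun m _ => (en2 _).symm
  calc ∫⁻ x in {x : E d | ∀ i, x i ∈ Set.Ico (0 : ℝ) 1}, ‖tp T c x‖ₑ ^ p ≤
      ∫⁻ x in cu 1 (0 : E d), ‖tp T c x‖ₑ ^ p := lintegral_mono_set hsub
    _ ≤ ∫⁻ x in cu 1 (0 : E d), (ENNReal.ofReal (T.card : ℝ) * S2) ^ (p / 2 - 1) *
        ‖tp T c x‖ₑ ^ (2 : ℝ) := lintegral_mono fun x => h2 x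
    _ = (ENNReal.ofReal (T.card : ℝ) * S2) ^ (p / 2 - 1) * (ENNReal.ofReal (2 ^ d) * S2) := by
        rw [lintegral_const_mul' _ _ (ENNReal.rpow_ne_top_of_nonneg hq
          (ENNReal.mul_ne_top ENNReal.ofReal_ne_top hS2t)), h3]
    _ = _ := by
        rw [ENNReal.mul_rpow_of_nonneg _ _ hq, ENNReal.ofReal_mul (by positivity),
          ENNReal.ofReal_rpow_of_nonneg (by positivity) hq]
        have e1 : S2 ^ (p / 2) = S2 ^ (p / 2 - 1) * S2 := by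
          conv_rhs => rw [← ENNReal.rpow_one S2, ← ENNReal.rpow_mul, one_mul,
            ← ENNReal.rpow_add_of_nonneg _ _ hq (by norm_num)]
          congr 1
          ring
        rw [e1]
        ring

/-- blocks with at most `A R^κ` points in `(-R, R)^d` -/
theorem lamset_card (d : ℕ) (p A κ : ℝ) (hp : 2 ≤ p) (hA : 0 ≤ A)
    (S : Set (Fin d → ℤ)) (hS : ∀ R : ℕ, 1 ≤ R →
      (({m | m ∈ S ∧ ∀ i, |m i| < R} : Set (Fin d → ℤ)).ncard : ℝ) ≤ A * (R : ℝ) ^ κ)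
    (R : ℕ) (hR : 1 ≤ R) :
    LamSet p (((2 : ℝ) ^ d * A ^ (p / 2 - 1)) ^ (1 / p) * (R : ℝ) ^ (κ * (1 / 2 - 1 / p)))
      {m | m ∈ S ∧ ∀ i, |m i| < R} := by
  have hp0 : 0 < p := by linarith
  have hR0 : (0 : ℝ) < R := by exact_mod_cast hR
  intro T hT c
  refine (crd d p hp T c).trans ?_
  refine mul_le_mul' (ENNReal.ofReal_le_ofReal ?_) le_rfl
  have hfin : ({m | m ∈ S ∧ ∀ i, |m i| < R} : Set (Fin d → ℤ)).Finite := by
    refine Set.Finite.subset (Fintype.piFinset fun _ : Fin d =>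
      Finset.Icc (-(R : ℤ)) R).finite_toSet ?_
    intro m hm
    rw [Finset.mem_coe, Fintype.mem_piFinset]
    intro i
    rw [Finset.mem_Icc]
    exact abs_le.1 (hm.2 i).le
  have hcard : (T.card : ℝ) ≤ A * (R : ℝ) ^ κ := by
    refine le_trans ?_ (hS R hR)
    rw [← Set.ncard_coe_finset T]
    exact_mod_cast Set.ncard_le_ncard hT hfin
  have h1 : (T.card : ℝ) ^ (p / 2 - 1) ≤ (A * (R : ℝ) ^ κ) ^ (p / 2 - 1) :=
    Real.rpow_le_rpow (by positivity) hcard (by linarith)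
  have h2 : (((2 : ℝ) ^ d * A ^ (p / 2 - 1)) ^ (1 / p) * (R : ℝ) ^ (κ * (1 / 2 - 1 / p))) ^ p =
      2 ^ d * (A * (R : ℝ) ^ κ) ^ (p / 2 - 1) := by
    rw [Real.mul_rpow (by positivity) (by positivity), ← Real.rpow_mul (by positivity),
      one_div_mul_cancel hp0.ne', Real.rpow_one, ← Real.rpow_mul hR0.le,
      Real.mul_rpow hA (by positivity), ← Real.rpow_mul hR0.le, mul_assoc]
    congr 3
    field_simp
  rw [h2]
  exact mul_le_mul_of_nonneg_left h1 (by positivity)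

end Pool.Agent.K9h71.RD
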