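import Pool.Agent.K9h71.RD.Stm
import Pool.Agent.N170.LS.LLG

/-!
# Project RD (helper71): the local estimate for blocks
-/

set_option autoImplicit false

namespace Pool.Agent.K9h71.RD

open MeasureTheory Pool.Agent.N303.LS Pool.Agent.N492.LS Pool.Agent.N262.LS Pool.Agent.N170.LS
open scoped ENNReal FourierTransform RealInnerProductSpace SchwartzMap ComplexConjugate

/-- Minkowski's inequality for finite sums -/
theorem mink {α : Type*} [MeasurableSpace α] {μ : Measure α} {q : ℝ} (hq : 1 ≤ q) (s : Finset ℕ)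
    (f : ℕ → α → ℝ≥0∞) (hf : ∀ i, Measurable (f i)) :
    (∫⁻ x, (∑ i ∈ s, f i x) ^ q ∂μ) ^ (1 / q) ≤ ∑ i ∈ s, (∫⁻ x, f i x ^ q ∂μ) ^ (1 / q) := by
  classical
  have hq0 : 0 < q := by linarith
  induction s using Finset.induction_on with
  | empty => simp [ENNReal.zero_rpow_of_pos hq0, ENNReal.zero_rpow_of_pos (show 0 < q⁻¹ by positivity)]
  | insert i s hi ih =>
    simp only [Finset.sum_insert hi]
    have h := ENNReal.lintegral_Lp_add_le (μ := μ) (f := f i) (g := fun x => ∑ i ∈ s, f i x)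
      (p := q) (hf i).aemeasurable
      (Finset.measurable_sum s fun i _ => hf i).aemeasurable hq
    exact h.trans (add_le_add le_rfl ih)

theorem cs_sum {n : ℕ} (b : Fin n → ℝ≥0∞) :
    (∑ j, b j) ^ (2 : ℝ) ≤ (n : ℝ≥0∞) * ∑ j, b j ^ (2 : ℝ) := by
  have h := ENNReal.rpow_sum_le_const_mul_sum_rpow (s := (Finset.univ : Finset (Fin n)))
    (f := b) (p := (2 : ℝ)) (by norm_num)
  rw [Finset.card_univ, Fintype.card_fin] at h
  have e : (n : ℝ≥0∞) ^ ((2 : ℝ) - 1) = n := by norm_num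
  rwa [e] at h

/-- the estimate for one kernel and blocks -/
theorem oneV {d : ℕ} (k : 𝓢(E d, ℂ)) {H : E d → ℂ} (hH : Integrable H) (z : E d)
    (s : Finset ℕ) (S : ℕ → Finset (Fin d → ℤ)) (hS : ∀ i j, i ≠ j → Disjoint (S i) (S j))
    (α : (Fin d → ℤ) → ℂ) {p Λ : ℝ} (hp : 2 ≤ p) (hΛ : 0 ≤ Λ) (hL : ∀ i, Lam p Λ (S i) α)
    {N : ℝ≥0∞} (hN : ∀ (ξ : E d) (A : Finset (Fin d → ℤ)),
      ∑ m ∈ A, ‖bw H (ξ + pt m)‖ₑ ^ (2 : ℝ) ≤ N) :
    ∫⁻ x in cu 1 z, (∑ i ∈ s, ‖op k (S i) α H x‖ₑ ^ (2 : ℝ)) ^ (p / 2) ≤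
      (∫⁻ ξ : E d, ‖𝓕 (k : E d → ℂ) ξ‖ₑ) ^ (p / 2) * (∫⁻ ξ : E d, ‖𝓕 (k : E d → ℂ) ξ‖ₑ) ^ (p / 2 - 1)
        * (∫⁻ ξ : E d, ‖𝓕 (k : E d → ℂ) ξ‖ₑ) *
        (3 ^ d * (ENNReal.ofReal (Λ ^ p) * N ^ (p / 2))) := by
  classical
  have hp0 : 0 < p := by linarith
  have hq1 : 1 ≤ p / 2 := by linarith
  have hq0 : 0 < p / 2 := by linarith
  obtain ⟨κ, hκ⟩ : ∃ κ : ℝ≥0∞, κ = ∫⁻ ξ : E d, ‖𝓕 (k : E d → ℂ) ξ‖ₑ := ⟨_, rfl⟩
  have hκt : κ ≠ ⊤ := by rw [hκ]; exact fK_top k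
  rw [← hκ]
  obtain ⟨τ, hτ⟩ : ∃ τ : ℕ → E d → E d → ℂ, τ = fun i ξ x =>
    tp (S i) (fun m => α m * bw H (ξ + pt m)) x := ⟨_, rfl⟩
  have hτc : ∀ i, Continuous fun z : E d × E d => τ i z.2 z.1 := fun i => by
    rw [hτ]; exact tpw_cont hH (S i) α
  have h1 : ∀ x, ∑ i ∈ s, ‖op k (S i) α H x‖ₑ ^ (2 : ℝ) ≤
      κ * ∫⁻ ξ : E d, ‖𝓕 (k : E d → ℂ) ξ‖ₑ * ∑ i ∈ s, ‖τ i ξ x‖ₑ ^ (2 : ℝ) := by
    intro x
    have e1 : ∫⁻ ξ : E d, ‖𝓕 (k : E d → ℂ) ξ‖ₑ * ∑ i ∈ s, ‖τ i ξ x‖ₑ ^ (2 : ℝ) =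
        ∑ i ∈ s, ∫⁻ ξ : E d, ‖𝓕 (k : E d → ℂ) ξ‖ₑ * ‖τ i ξ x‖ₑ ^ (2 : ℝ) := by
      simp only [Finset.mul_sum]
      rw [lintegral_finsetSum s]
      intro i _
      exact (fK_meas k).mul (((hτc i).comp (continuous_const.prodMk continuous_id)).measurable.enorm.pow_const _)
    rw [e1, Finset.mul_sum]
    refine Finset.sum_le_sum fun i _ => ?_
    have h := pww k hH x (S i) α (p := 2) (by norm_num)
    rw [← hκ] at h
    have e : κ ^ ((2 : ℝ) - 1) = κ := by norm_num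
    rw [e] at h
    rw [hτ]
    exact h
  have h2 : ∀ x, (∑ i ∈ s, ‖op k (S i) α H x‖ₑ ^ (2 : ℝ)) ^ (p / 2) ≤
      κ ^ (p / 2) * (κ ^ (p / 2 - 1) * ∫⁻ ξ : E d, ‖𝓕 (k : E d → ℂ) ξ‖ₑ *
        (∑ i ∈ s, ‖τ i ξ x‖ₑ ^ (2 : ℝ)) ^ (p / 2)) := by
    intro x
    refine (ENNReal.rpow_le_rpow (h1 x) hq0.le).trans ?_
    rw [ENNReal.mul_rpow_of_nonneg _ _ hq0.le]
    refine mul_le_mul' le_rfl ?_
    have ec : ∀ ξ, ∑ i ∈ s, ‖τ i ξ x‖ₑ ^ (2 : ℝ) =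
        ‖((∑ i ∈ s, ‖τ i ξ x‖ ^ 2 : ℝ) : ℂ)‖ₑ := by
      intro ξ
      rw [← ofReal_norm, Complex.norm_real, Real.norm_of_nonneg (by positivity),
        ENNReal.ofReal_sum_of_nonneg fun _ _ => by positivity]
      exact Finset.sum_congr rfl fun i _ => en2 _
    simp only [ec]
    have hm : Measurable fun ξ : E d => ((∑ i ∈ s, ‖τ i ξ x‖ ^ 2 : ℝ) : ℂ) := by
      refine Continuous.measurable ?_
      refine Complex.continuous_ofReal.comp ?_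
      refine continuous_finset_sum _ fun i _ => ?_
      exact ((hτc i).comp (continuous_const.prodMk continuous_id)).norm.pow 2
    have h := Pool.Agent.N558.LS.jensen volume _ (fK_meas k) _ hm hq1
    rw [← hκ] at h
    exact h
  refine (setLIntegral_mono' (cu_meas 1 z) fun x _ => h2 x).trans ?_
  rw [lintegral_const_mul' _ _ (ENNReal.rpow_ne_top_of_nonneg hq0.le hκt),
    lintegral_const_mul' _ _ (ENNReal.rpow_ne_top_of_nonneg (by linarith) hκt), mul_assoc, mul_assoc]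
  refine mul_le_mul' le_rfl (mul_le_mul' le_rfl ?_)
  rw [lintegral_lintegral_swap]
  · rw [hκ, ← lintegral_mul_const _ (fK_meas k)]
    refine lintegral_mono fun ξ => ?_
    rw [lintegral_const_mul' _ _ enorm_ne_top]
    refine mul_le_mul' le_rfl ?_
    -- Minkowski
    have hτm : ∀ i, Measurable fun x => ‖τ i ξ x‖ₑ ^ (2 : ℝ) := fun i =>
      ((hτc i).comp (continuous_id.prodMk continuous_const)).measurable.enorm.pow_const _
    have m1 := mink (μ := volume.restrict (cu 1 z)) hq1 s (fun i x => ‖τ i ξ x‖ₑ ^ (2 : ℝ)) hτm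
    have m2 : ∀ i, (∫⁻ x in cu 1 z, (‖τ i ξ x‖ₑ ^ (2 : ℝ)) ^ (p / 2)) ^ (1 / (p / 2)) ≤
        ((3 : ℝ≥0∞) ^ d * ENNReal.ofReal (Λ ^ p)) ^ (1 / (p / 2)) *
          ∑ m ∈ S i, ‖bw H (ξ + pt m)‖ₑ ^ (2 : ℝ) := by
      intro i
      have e1 : ∀ x, (‖τ i ξ x‖ₑ ^ (2 : ℝ)) ^ (p / 2) = ‖τ i ξ x‖ₑ ^ p := fun x => by
        rw [← ENNReal.rpow_mul]
        congr 1
        ring
      simp only [e1]
      have h := lam_cu (hL i) (fun m => bw H (ξ + pt m)) z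
      rw [← mul_assoc] at h
      have h' : ∫⁻ x in cu 1 z, ‖τ i ξ x‖ₑ ^ p ≤ (3 : ℝ≥0∞) ^ d * ENNReal.ofReal (Λ ^ p) *
          (∑ m ∈ S i, ‖bw H (ξ + pt m)‖ₑ ^ (2 : ℝ)) ^ (p / 2) := by
        rw [hτ]
        exact h
      refine (ENNReal.rpow_le_rpow h' (by positivity)).trans (le_of_eq ?_)
      rw [ENNReal.mul_rpow_of_nonneg _ _ (by positivity), ← ENNReal.rpow_mul,
        mul_one_div_cancel hq0.ne', ENNReal.rpow_one]
    have m3 : ∑ i ∈ s, ∑ m ∈ S i, ‖bw H (ξ + pt m)‖ₑ ^ (2 : ℝ) ≤ N := by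
      rw [← Finset.sum_biUnion]
      · exact hN ξ _
      · intro i _ j _ hij
        exact hS i j hij
    have m4 : (∫⁻ x in cu 1 z, (∑ i ∈ s, ‖τ i ξ x‖ₑ ^ (2 : ℝ)) ^ (p / 2)) ^ (1 / (p / 2)) ≤
        ((3 : ℝ≥0∞) ^ d * ENNReal.ofReal (Λ ^ p)) ^ (1 / (p / 2)) * N := by
      refine m1.trans ((Finset.sum_le_sum fun i _ => m2 i).trans ?_)
      rw [← Finset.mul_sum]
      exact mul_le_mul' le_rfl m3
    have m5 := ENNReal.rpow_le_rpow m4 hq0.le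
    rw [← ENNReal.rpow_mul, one_div_mul_cancel hq0.ne', ENNReal.rpow_one,
      ENNReal.mul_rpow_of_nonneg _ _ hq0.le, ← ENNReal.rpow_mul, one_div_mul_cancel hq0.ne',
      ENNReal.rpow_one, mul_assoc] at m5
    exact m5
  · refine Measurable.aemeasurable ?_
    refine ((fK_meas k).comp measurable_snd).mul (Measurable.pow_const ?_ _)
    exact Finset.measurable_sum s fun i _ => (hτc i).measurable.enorm.pow_const _

theorem t_llv (h1 : S_PD) (h2 : S_BW) : S_LLV := by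
  classical
  intro d M p hp K
  have hp0 : 0 < p := by linarith
  have hq1 : 1 ≤ p / 2 := by linarith
  have hq0 : 0 < p / 2 := by linarith
  obtain ⟨B, C, hC, hB, hbw⟩ := h2 d M
  obtain ⟨n, P, k, hPc, hP⟩ := h1 d B K
  have hD : ∀ i, ∃ D : ℝ, ∀ y ∈ cu 1 (0 : E d), ‖P i y‖ ≤ D := fun i =>
    (cu_compact 1 (0 : E d)).exists_bound_of_continuousOn (hPc i).continuousOn
  choose D hD using hD
  obtain ⟨κ, hκ⟩ : ∃ κ : Fin n → ℝ≥0∞, κ = fun i => ∫⁻ ξ : E d, ‖𝓕 (k i : E d → ℂ) ξ‖ₑ := ⟨_, rfl⟩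
  have hκt : ∀ i, κ i ≠ ⊤ := fun i => by rw [hκ]; exact fK_top (k i)
  obtain ⟨C', hC'⟩ : ∃ C' : ℝ≥0∞, C' = (n : ℝ≥0∞) ^ (p / 2) * ((n : ℝ≥0∞) ^ (p / 2 - 1) *
    ∑ i : Fin n, ENNReal.ofReal (D i) ^ p * (κ i ^ (p / 2) * κ i ^ (p / 2 - 1) * κ i * 3 ^ d *
      ENNReal.ofReal C ^ (p / 2))) := ⟨_, rfl⟩
  have hC't : C' ≠ ⊤ := by
    rw [hC']
    refine ENNReal.mul_ne_top (ENNReal.rpow_ne_top_of_nonneg (by linarith) (by simp)) ?_
    refine ENNReal.mul_ne_top (ENNReal.rpow_ne_top_of_nonneg (by linarith) (by simp)) ?_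
    refine ENNReal.sum_ne_top.2 fun i _ => ?_
    refine ENNReal.mul_ne_top (ENNReal.rpow_ne_top_of_nonneg (by linarith) ENNReal.ofReal_ne_top) ?_
    refine ENNReal.mul_ne_top (ENNReal.mul_ne_top (ENNReal.mul_ne_top (ENNReal.mul_ne_top
      (ENNReal.rpow_ne_top_of_nonneg (by linarith) (hκt i))
      (ENNReal.rpow_ne_top_of_nonneg (by linarith) (hκt i))) (hκt i)) (by finiteness))
      (ENNReal.rpow_ne_top_of_nonneg (by linarith) ENNReal.ofReal_ne_top)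
  refine ⟨C'.toReal + 1, by positivity, ?_⟩
  intro s S α Λ hS hΛ hL F hF z
  have hcF := cont_inv hF
  have hbF : ∀ x, ‖inv F x‖ ≤ ∫ ξ, ‖F ξ‖ := by
    intro x
    rw [inv_eq]
    refine (norm_integral_le_integral_norm _).trans (le_of_eq ?_)
    refine integral_congr_ae (Filter.Eventually.of_forall fun y => ?_)
    show ‖e ⟪x, y⟫ * F y‖ = ‖F y‖
    rw [norm_mul, norm_e, one_mul]
  have hH : Integrable fun u => inv F u * wB B z u :=
    int_bdd (c := ∫ ξ, ‖F ξ‖) (wB_int hB z) hcF.aestronglyMeasurable hbF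
  have hset : {x : E d | ∀ i, |x i - z i| ≤ 1} = cu 1 z := by
    ext x
    unfold cu
    simp
  rw [hset]
  have hN : ∀ (ξ : E d) (A : Finset (Fin d → ℤ)),
      ∑ m ∈ A, ‖bw (fun u => inv F u * wB B z u) (ξ + pt m)‖ₑ ^ (2 : ℝ) ≤
      ENNReal.ofReal C * nrg M (inv F) z := by
    intro ξ A
    refine le_trans (le_of_eq ?_) (hbw (inv F) hcF ⟨_, hbF⟩ z ξ A)
    refine Finset.sum_congr rfl fun m _ => ?_
    congr 2
    unfold bw
    refine integral_congr_ae (Filter.Eventually.of_forall fun u => ?_)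
    show inv F u * wB B z u * conj (e ⟪u, ξ + pt m⟫) = _
    rw [conj_e]
    unfold wB e
    rw [show 2 * Real.pi * -⟪u, ξ + pt m⟫ = -(2 * Real.pi * ⟪u, ξ + pt m⟫) by ring]
  obtain ⟨H, hHd⟩ : ∃ H : E d → ℂ, H = fun u => inv F u * wB B z u := ⟨_, rfl⟩
  rw [← hHd] at hH hN
  have h3 : ∀ x ∈ cu 1 z, ∀ i, ‖inv (fun ξ => psia K (S i) α ξ * F ξ) x‖ₑ ^ (2 : ℝ) ≤
      (n : ℝ≥0∞) * ∑ j : Fin n, ENNReal.ofReal (D j) ^ (2 : ℝ) *
        ‖op (k j) (S i) α H x‖ₑ ^ (2 : ℝ) := by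
    intro x hx i
    have h4 := formP K hF x z (S i) α P k hP (by rw [← hHd]; exact hH)
    rw [← hHd] at h4
    rw [h4]
    have hxz : x - z ∈ cu 1 (0 : E d) := by
      intro j
      have := hx j
      simpa using this
    calc ‖∑ j, P j (x - z) * op (k j) (S i) α H x‖ₑ ^ (2 : ℝ)
        ≤ (∑ j, ENNReal.ofReal (D j) * ‖op (k j) (S i) α H x‖ₑ) ^ (2 : ℝ) := by
          refine ENNReal.rpow_le_rpow ?_ (by norm_num)
          refine (enorm_sum_le _ _).trans (Finset.sum_le_sum fun j _ => ?_)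
          rw [enorm_mul]
          refine mul_le_mul' ?_ le_rfl
          rw [← ofReal_norm]
          exact ENNReal.ofReal_le_ofReal (hD j _ hxz)
      _ ≤ (n : ℝ≥0∞) * ∑ j, (ENNReal.ofReal (D j) * ‖op (k j) (S i) α H x‖ₑ) ^ (2 : ℝ) :=
          cs_sum _
      _ = _ := by
          congr 1
          refine Finset.sum_congr rfl fun j _ => ?_
          rw [ENNReal.mul_rpow_of_nonneg _ _ (by norm_num)]
  obtain ⟨G, hG⟩ : ∃ G : Fin n → E d → ℝ≥0∞, G = fun j x =>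
    ∑ i ∈ s, ‖op (k j) (S i) α H x‖ₑ ^ (2 : ℝ) := ⟨_, rfl⟩
  have hGm : ∀ j, Measurable (G j) := by
    intro j
    rw [hG]
    exact Finset.measurable_sum s fun i _ => (op_meas (k j) hH (S i) α).enorm.pow_const _
  have h5 : ∀ x ∈ cu 1 z, (∑ i ∈ s, ‖inv (fun ξ => psia K (S i) α ξ * F ξ) x‖ₑ ^ (2 : ℝ)) ^ (p / 2) ≤
      (n : ℝ≥0∞) ^ (p / 2) * ((n : ℝ≥0∞) ^ (p / 2 - 1) * ∑ j : Fin n, ENNReal.ofReal (D j) ^ p *
        G j x ^ (p / 2)) := by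
    intro x hx
    have a1 : ∑ i ∈ s, ‖inv (fun ξ => psia K (S i) α ξ * F ξ) x‖ₑ ^ (2 : ℝ) ≤
        (n : ℝ≥0∞) * ∑ j : Fin n, ENNReal.ofReal (D j) ^ (2 : ℝ) * G j x := by
      refine (Finset.sum_le_sum fun i _ => h3 x hx i).trans (le_of_eq ?_)
      rw [← Finset.mul_sum, Finset.sum_comm, hG]
      simp only [← Finset.mul_sum]
    refine (ENNReal.rpow_le_rpow a1 hq0.le).trans ?_
    rw [ENNReal.mul_rpow_of_nonneg _ _ hq0.le]
    refine mul_le_mul' le_rfl ?_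
    refine (ENNReal.rpow_sum_le_const_mul_sum_rpow (s := (Finset.univ : Finset (Fin n)))
      (f := fun j => ENNReal.ofReal (D j) ^ (2 : ℝ) * G j x) (p := p / 2) hq1).trans (le_of_eq ?_)
    rw [Finset.card_univ, Fintype.card_fin]
    congr 1
    refine Finset.sum_congr rfl fun j _ => ?_
    rw [ENNReal.mul_rpow_of_nonneg _ _ hq0.le, ← ENNReal.rpow_mul]
    congr 2
    ring
  have h6 : ∫⁻ x in cu 1 z, (∑ i ∈ s, ‖inv (fun ξ => psia K (S i) α ξ * F ξ) x‖ₑ ^ (2 : ℝ)) ^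
      (p / 2) ≤ (n : ℝ≥0∞) ^ (p / 2) * ((n : ℝ≥0∞) ^ (p / 2 - 1) * ∑ j : Fin n,
        ENNReal.ofReal (D j) ^ p * (κ j ^ (p / 2) * κ j ^ (p / 2 - 1) * κ j *
          (3 ^ d * (ENNReal.ofReal (Λ ^ p) *
            (ENNReal.ofReal C * nrg M (inv F) z) ^ (p / 2))))) := by
    refine (setLIntegral_mono' (cu_meas 1 z) h5).trans ?_
    rw [lintegral_const_mul' _ _ (ENNReal.rpow_ne_top_of_nonneg (by linarith) (by simp)),
      lintegral_const_mul' _ _ (ENNReal.rpow_ne_top_of_nonneg (by linarith) (by simp)),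
      lintegral_finsetSum _ fun j _ => ((hGm j).pow_const _).const_mul _]
    refine mul_le_mul' le_rfl (mul_le_mul' le_rfl (Finset.sum_le_sum fun j _ => ?_))
    rw [lintegral_const_mul' _ _ (ENNReal.rpow_ne_top_of_nonneg (by linarith) ENNReal.ofReal_ne_top)]
    refine mul_le_mul' le_rfl ?_
    rw [hκ, hG]
    exact oneV (k j) hH z s S hS α hp hΛ hL hN
  refine h6.trans ?_
  have h7 : (n : ℝ≥0∞) ^ (p / 2) * ((n : ℝ≥0∞) ^ (p / 2 - 1) * ∑ j : Fin n,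
        ENNReal.ofReal (D j) ^ p * (κ j ^ (p / 2) * κ j ^ (p / 2 - 1) * κ j *
          (3 ^ d * (ENNReal.ofReal (Λ ^ p) *
            (ENNReal.ofReal C * nrg M (inv F) z) ^ (p / 2))))) =
      C' * ENNReal.ofReal (Λ ^ p) * nrg M (inv F) z ^ (p / 2) := by
    rw [hC', ENNReal.mul_rpow_of_nonneg _ _ hq0.le, mul_assoc, mul_assoc, mul_assoc,
      Finset.sum_mul]
    congr 2
    refine Finset.sum_congr rfl fun j _ => ?_
    ring
  rw [h7]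
  have h8 : C' ≤ ENNReal.ofReal (C'.toReal + 1) := by
    calc C' = ENNReal.ofReal C'.toReal := (ENNReal.ofReal_toReal hC't).symm
      _ ≤ _ := ENNReal.ofReal_le_ofReal (by linarith)
  rw [ENNReal.ofReal_mul (by positivity)]
  gcongr

end Pool.Agent.K9h71.RD
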