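import Pool.Agent.K9h71.RD.Stm
import Pool.Agent.K9h71.RD.LLV
import Pool.Agent.N303.LS.Fin7

/-!
# Project RD (helper71): square functions of the blocks of a wave; one shell with random coefficients
-/

set_option autoImplicit false

namespace Pool.Agent.K9h71.RD

open MeasureTheory ProbabilityTheory Pool.Agent.N303.LS
open scoped ENNReal FourierTransform RealInnerProductSpace SchwartzMap

/-- the square function of the blocks -/
theorem fin4v (hEN : S_EN) (hYOU : S_YOU) (hLLV : S_LLV) (d : ℕ) (p : ℝ) (hp : 2 ≤ p)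
    (K : 𝓢(E d, ℂ)) :
    ∃ C : ℝ, 0 < C ∧ ∀ (s : Finset ℕ) (S : ℕ → Finset (Fin d → ℤ)) (a : (Fin d → ℤ) → ℂ) (Λ : ℝ),
    (∀ i j, i ≠ j → Disjoint (S i) (S j)) → 0 ≤ Λ → (∀ i, Lam p Λ (S i) a) →
    ∀ (f₀ f₁ g₀ : 𝓢(E d, ℂ)) (g : Fin d → 𝓢(E d, ℂ)),
    (∀ x, f₁ x = g₀ x + ∑ j, lineDeriv ℝ (g j) x (EuclideanSpace.single j (1 : ℝ))) →
    ∀ t : ℝ, 0 ≤ t → t ≤ 2 →
      ∫⁻ x : E d, (∑ i ∈ s, ‖wave (fun ξ => psia K (S i) a ξ * 𝓕 (f₀ : E d → ℂ) ξ)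
        (fun ξ => psia K (S i) a ξ * 𝓕 (f₁ : E d → ℂ) ξ) t x‖ₑ ^ (2 : ℝ)) ^ (p / 2) ≤
        ENNReal.ofReal (C * Λ ^ p) *
          ((∫⁻ x : E d, ‖f₀ x‖ₑ ^ p) + (∫⁻ x : E d, ‖g₀ x‖ₑ ^ p) +
            ∑ j, ∫⁻ x : E d, ‖g j x‖ₑ ^ p) := by
  obtain ⟨C1, hC1, h1⟩ := hLLV d (d + 1) p hp K
  obtain ⟨C2, hC2, h2⟩ := hEN d (d + 1) (by omega)
  obtain ⟨C3, hC3, h3⟩ := hYOU d (d + 1) (by omega) p hp
  refine ⟨((d : ℝ) + 2) ^ (p - 1) * C1 * C2 ^ (p / 2) * C3, by positivity, ?_⟩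
  intro s S a Λ hS hΛ hL f₀ f₁ g₀ g hf t h0 h2t
  have hp0 : 0 < p := by linarith
  have hq0 : 0 < p / 2 := by linarith
  have hq1 : 1 ≤ p / 2 := by linarith
  have hw := fun i => wave_eqa K (S i) a f₀ f₁ g₀ g (fourier_gen f₁ g₀ g hf) t h0 h2t
  set P : ℕ → Fin d ⊕ Bool → E d → ℂ := fun i k x =>
    inv (fun ξ => psia K (S i) a ξ * (sym k t ξ * 𝓕 (gen f₀ g₀ g k : E d → ℂ) ξ)) x with hP
  have hPc : ∀ i k, Continuous (P i k) := fun i k =>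
    inv_cont _ (psia_int K (S i) a _ (sym_int k t h0 h2t (gen f₀ g₀ g k)))
  have hw' : ∀ i x, wave (fun ξ => psia K (S i) a ξ * 𝓕 (f₀ : E d → ℂ) ξ)
        (fun ξ => psia K (S i) a ξ * 𝓕 (f₁ : E d → ℂ) ξ) t x = ∑ k : Fin d ⊕ Bool, P i k x :=
    fun i x => hw i x
  simp only [hw']
  have hcard : (Finset.univ : Finset (Fin d ⊕ Bool)).card = d + 2 := by simp
  set G : Fin d ⊕ Bool → E d → ℝ≥0∞ := fun k x => ∑ i ∈ s, ‖P i k x‖ₑ ^ (2 : ℝ) with hG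
  have hGm : ∀ k, Measurable (G k) := fun k =>
    Finset.measurable_sum s fun i _ => (hPc i k).measurable.enorm.pow_const _
  have hms : ∀ k, Measurable fun x => G k x ^ (p / 2) := fun k => (hGm k).pow_const _
  have c2 : ENNReal.ofReal ((d : ℝ) + 2) = ((d + 2 : ℕ) : ℝ≥0∞) := by
    rw [ENNReal.ofReal_add (by positivity) (by norm_num), ENNReal.ofReal_natCast,
      ENNReal.ofReal_ofNat]
    push_cast
    rfl
  have s0 : ∀ x, (∑ i ∈ s, ‖∑ k : Fin d ⊕ Bool, P i k x‖ₑ ^ (2 : ℝ)) ^ (p / 2) ≤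
      ENNReal.ofReal (((d : ℝ) + 2) ^ (p - 1)) * ∑ k : Fin d ⊕ Bool, G k x ^ (p / 2) := by
    intro x
    have a1 : ∑ i ∈ s, ‖∑ k : Fin d ⊕ Bool, P i k x‖ₑ ^ (2 : ℝ) ≤
        ENNReal.ofReal ((d : ℝ) + 2) * ∑ k : Fin d ⊕ Bool, G k x := by
      have e1 : ∀ i, ‖∑ k : Fin d ⊕ Bool, P i k x‖ₑ ^ (2 : ℝ) ≤
          ENNReal.ofReal ((d : ℝ) + 2) * ∑ k : Fin d ⊕ Bool, ‖P i k x‖ₑ ^ (2 : ℝ) := by
        intro i
        have h := pow_sum 2 (by norm_num) (Finset.univ : Finset (Fin d ⊕ Bool)) (fun k => P i k x)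
        rw [hcard] at h
        have e : (((d + 2 : ℕ) : ℝ)) ^ ((2 : ℝ) - 1) = (d : ℝ) + 2 := by
          norm_num
        rw [e] at h
        exact h
      refine (Finset.sum_le_sum fun i _ => e1 i).trans (le_of_eq ?_)
      rw [← Finset.mul_sum, Finset.sum_comm]
    refine (ENNReal.rpow_le_rpow a1 hq0.le).trans ?_
    rw [ENNReal.mul_rpow_of_nonneg _ _ hq0.le]
    have a2 := ENNReal.rpow_sum_le_const_mul_sum_rpow (s := (Finset.univ : Finset (Fin d ⊕ Bool)))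
      (f := fun k => G k x) (p := p / 2) hq1
    rw [hcard, ← c2] at a2
    refine (mul_le_mul' le_rfl a2).trans (le_of_eq ?_)
    rw [← mul_assoc, ENNReal.ofReal_rpow_of_nonneg (by positivity) (by positivity),
      ENNReal.ofReal_rpow_of_nonneg (by positivity) (by linarith),
      ← ENNReal.ofReal_mul (by positivity), ← Real.rpow_add (by positivity)]
    congr 3
    ring
  have s1 : ∫⁻ x : E d, (∑ i ∈ s, ‖∑ k : Fin d ⊕ Bool, P i k x‖ₑ ^ (2 : ℝ)) ^ (p / 2) ≤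
      ENNReal.ofReal (((d : ℝ) + 2) ^ (p - 1)) *
        ∑ k : Fin d ⊕ Bool, ∫⁻ x : E d, G k x ^ (p / 2) := by
    rw [← lintegral_finset_sum _ fun k _ => hms k, ← lintegral_const_mul']
    · exact lintegral_mono s0
    · exact ENNReal.ofReal_ne_top
  have s2 : ∀ k, ∫⁻ x : E d, G k x ^ (p / 2) ≤ ENNReal.ofReal (C1 * Λ ^ p) *
      (ENNReal.ofReal (C2 ^ (p / 2)) * (ENNReal.ofReal C3 *
        ∫⁻ x : E d, ‖gen f₀ g₀ g k x‖ₑ ^ p)) := by
    intro k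
    have a1 := Pool.Agent.N492.LS.avg 1 (hms k)
    calc ∫⁻ x : E d, G k x ^ (p / 2) ≤ volume (Pool.Agent.N492.LS.cu 1 (0 : E d)) *
          ∫⁻ x : E d, G k x ^ (p / 2) := le_mul_of_one_le_left (by positivity) (vol_cu d)
      _ = ∫⁻ z : E d, ∫⁻ x in Pool.Agent.N492.LS.cu 1 z, G k x ^ (p / 2) := a1.symm
      _ ≤ ∫⁻ z : E d, ENNReal.ofReal (C1 * Λ ^ p) *
          (ENNReal.ofReal (C2 ^ (p / 2)) * nrg (d + 1) (gen f₀ g₀ g k) z ^ (p / 2)) := by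
          refine lintegral_mono fun z => ?_
          have b1 := h1 s S a Λ hS hΛ hL _ (sym_int k t h0 h2t (gen f₀ g₀ g k)) z
          have b2 := h2 (gen f₀ g₀ g k) z t h0 h2t k
          have e0 : Pool.Agent.N492.LS.cu 1 z = {x : E d | ∀ i, |x i - z i| ≤ 1} := by
            unfold Pool.Agent.N492.LS.cu
            norm_num
          rw [e0]
          refine b1.trans ?_
          gcongr
          refine (ENNReal.rpow_le_rpow b2 (by positivity)).trans (le_of_eq ?_)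
          rw [ENNReal.mul_rpow_of_nonneg _ _ (by positivity),
            ENNReal.ofReal_rpow_of_nonneg hC2.le (by positivity)]
      _ = ENNReal.ofReal (C1 * Λ ^ p) * (ENNReal.ofReal (C2 ^ (p / 2)) *
          ∫⁻ z : E d, nrg (d + 1) (gen f₀ g₀ g k) z ^ (p / 2)) := by
          rw [lintegral_const_mul' _ _ ENNReal.ofReal_ne_top,
            lintegral_const_mul' _ _ ENNReal.ofReal_ne_top]
      _ ≤ _ := by
          gcongr
          exact h3 _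
  refine s1.trans ?_
  have s3 : ∑ k : Fin d ⊕ Bool, ∫⁻ x : E d, ‖(gen f₀ g₀ g k) x‖ₑ ^ p =
      (∫⁻ x : E d, ‖f₀ x‖ₑ ^ p) + (∫⁻ x : E d, ‖g₀ x‖ₑ ^ p) +
        ∑ j, ∫⁻ x : E d, ‖g j x‖ₑ ^ p := by
    rw [Fintype.sum_sum_type, Fintype.sum_bool, add_comm]
    rfl
  calc ENNReal.ofReal (((d : ℝ) + 2) ^ (p - 1)) * ∑ k : Fin d ⊕ Bool, ∫⁻ x : E d, G k x ^ (p / 2) ≤
      ENNReal.ofReal (((d : ℝ) + 2) ^ (p - 1)) * ∑ k : Fin d ⊕ Bool, ENNReal.ofReal (C1 * Λ ^ p) *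
      (ENNReal.ofReal (C2 ^ (p / 2)) * (ENNReal.ofReal C3 *
        ∫⁻ x : E d, ‖gen f₀ g₀ g k x‖ₑ ^ p)) := by
        gcongr with k _
        exact s2 k
    _ = _ := by
        rw [← Finset.mul_sum, ← Finset.mul_sum, ← Finset.mul_sum, s3]
        have e6 : ENNReal.ofReal (((d : ℝ) + 2) ^ (p - 1) * C1 * C2 ^ (p / 2) * C3 * Λ ^ p) =
            ENNReal.ofReal (((d : ℝ) + 2) ^ (p - 1)) * ENNReal.ofReal (C1 * Λ ^ p) *
              ENNReal.ofReal (C2 ^ (p / 2)) * ENNReal.ofReal C3 := by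
          rw [← ENNReal.ofReal_mul (by positivity), ← ENNReal.ofReal_mul (by positivity),
            ← ENNReal.ofReal_mul (by positivity)]
          congr 1
          ring
        rw [e6]
        ring

/-- the mean over the random coefficients is bounded by the square function -/
theorem mean_sq (hMZ : S_MZ) (p : ℝ) (hp : 2 ≤ p) : ∃ C : ℝ, 0 < C ∧
    ∀ (d : ℕ) (Ω : Type) (_ : MeasurableSpace Ω) (P : Measure Ω), IsProbabilityMeasure P →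
    ∀ g : ℕ → Ω → ℂ, (∀ n, Measurable (g n)) → iIndepFun g P → (∀ n, ∫ ω, g n ω ∂P = 0) →
    (∀ n, ∫⁻ ω, ‖g n ω‖ₑ ^ p ∂P ≤ 1) → ∀ (s : Finset ℕ) (w : ℕ → E d → ℂ),
      (∀ n, Continuous (w n)) →
      ∫⁻ ω, (∫⁻ x : E d, ‖∑ n ∈ s, g n ω * w n x‖ₑ ^ p) ∂P ≤
        ENNReal.ofReal C * ∫⁻ x : E d, (∑ n ∈ s, ‖w n x‖ₑ ^ (2 : ℝ)) ^ (p / 2) := by
  obtain ⟨C, hC, h⟩ := hMZ p hp
  refine ⟨C, hC, ?_⟩
  intro d Ω _ P _ g hgm hgi hg0 hg1 s w hw
  rw [lintegral_lintegral_swap]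
  · rw [← lintegral_const_mul' _ _ ENNReal.ofReal_ne_top]
    exact lintegral_mono fun x => h Ω _ P inferInstance g hgm hgi hg0 hg1 s fun n => w n x
  · refine Measurable.aemeasurable ?_
    refine Measurable.pow_const ?_ _
    refine Measurable.enorm ?_
    exact Finset.measurable_sum s fun n _ =>
      ((hgm n).comp measurable_fst).mul ((hw n).measurable.comp measurable_snd)

/-- summation of the norms of the shells -/
theorem geoV {α : Type*} [MeasurableSpace α] (μ : Measure α) (p : ℝ) (hp : 1 ≤ p) (w : ℕ → α → ℂ)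
    (hw : ∀ c, AEStronglyMeasurable (w c) μ) (Q q : ℝ)
    (hQ : 0 ≤ Q) (hq0 : 0 ≤ q) (hq1 : q < 1) (B : ℝ≥0∞)
    (h : ∀ c, ∫⁻ x, ‖w c x‖ₑ ^ p ∂μ ≤ ENNReal.ofReal (Q ^ p * (q ^ p) ^ c) * B) (N : ℕ) :
    ∫⁻ x, ‖∑ c ∈ Finset.range N, w c x‖ₑ ^ p ∂μ ≤ ENNReal.ofReal ((Q / (1 - q)) ^ p) * B := by
  have hp0 : 0 < p := by linarith
  have hpt : ENNReal.ofReal p ≠ 0 := by
    rw [Ne, ENNReal.ofReal_eq_zero]
    linarith
  have hpt2 : ENNReal.ofReal p ≠ ⊤ := ENNReal.ofReal_ne_top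
  have e1 : ∀ f : α → ℂ, eLpNorm f (ENNReal.ofReal p) μ = (∫⁻ x, ‖f x‖ₑ ^ p ∂μ) ^ (1 / p) := by
    intro f
    rw [eLpNorm_eq_lintegral_rpow_enorm_toReal hpt hpt2, ENNReal.toReal_ofReal hp0.le]
  have h2 : ∀ c, eLpNorm (w c) (ENNReal.ofReal p) μ ≤
      ENNReal.ofReal (Q * q ^ c) * B ^ (1 / p) := by
    intro c
    rw [e1]
    refine (ENNReal.rpow_le_rpow (h c) (by positivity)).trans (le_of_eq ?_)
    rw [ENNReal.mul_rpow_of_nonneg _ _ (by positivity),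
      ENNReal.ofReal_rpow_of_nonneg (by positivity) (by positivity)]
    congr 2
    have e2 : Q ^ p * (q ^ p) ^ c = (Q * q ^ c) ^ p := by
      rw [Real.mul_rpow hQ (by positivity), ← Real.rpow_natCast (q ^ p) c, ← Real.rpow_mul hq0,
        ← Real.rpow_natCast q c, ← Real.rpow_mul hq0, mul_comm p]
    rw [e2, ← Real.rpow_mul (by positivity), mul_one_div, div_self hp0.ne', Real.rpow_one]
  have h3 : eLpNorm (∑ c ∈ Finset.range N, w c) (ENNReal.ofReal p) μ ≤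
      ENNReal.ofReal (Q / (1 - q)) * B ^ (1 / p) := by
    refine (eLpNorm_sum_le (fun c _ => hw c)
      (by rw [← ENNReal.ofReal_one]; exact ENNReal.ofReal_le_ofReal hp)).trans ?_
    refine (Finset.sum_le_sum fun c _ => h2 c).trans ?_
    rw [← Finset.sum_mul, ← ENNReal.ofReal_sum_of_nonneg fun c _ => by positivity,
      ← Finset.mul_sum]
    gcongr
    rw [div_eq_mul_inv]
    gcongr
    have hs := (summable_geometric_of_lt_one hq0 hq1)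
    calc ∑ c ∈ Finset.range N, q ^ c ≤ ∑' c, q ^ c :=
          hs.sum_le_tsum _ fun c _ => by positivity
      _ = (1 - q)⁻¹ := tsum_geometric_of_lt_one hq0 hq1
  rw [e1] at h3
  have h4 := ENNReal.rpow_le_rpow h3 hp0.le
  rw [← ENNReal.rpow_mul, one_div_mul_cancel hp0.ne', ENNReal.rpow_one,
    ENNReal.mul_rpow_of_nonneg _ _ hp0.le, ← ENNReal.rpow_mul, one_div_mul_cancel hp0.ne',
    ENNReal.rpow_one, ENNReal.ofReal_rpow_of_nonneg (div_nonneg hQ (by linarith)) hp0.le] at h4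
  simpa only [Finset.sum_apply] using h4

end Pool.Agent.K9h71.RD
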