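import Pool.Agent.K9h71.RD.Stm
import Pool.Agent.N303.LS.Fin2

/-!
# Project RD (helper71): Bessel potentials of all orders on dyadic shells
-/

set_option autoImplicit false

namespace Pool.Agent.K9h71.RD

open MeasureTheory Pool.Agent.N303.LS
open scoped ENNReal FourierTransform RealInnerProductSpace SchwartzMap

lemma tg_pow {d : ℕ} (χ : E d → ℂ) (h : χ.HasTemperateGrowth) (n : ℕ) :
    (fun ξ => χ ξ ^ n).HasTemperateGrowth := by
  induction n with
  | zero => simpa using Function.HasTemperateGrowth.const (1 : ℂ)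
  | succ n ih =>
    have e : (fun ξ => χ ξ ^ (n + 1)) = fun ξ => χ ξ ^ n * χ ξ := by
      funext ξ
      rw [pow_succ]
    rw [e]
    exact ih.mul h

theorem t_lps (h : S_LPK) : S_LPS := by
  intro d s hs
  obtain ⟨χ, χtg, χ1, hχ⟩ := h d
  obtain ⟨n, hn⟩ : ∃ n : ℕ, n = ⌈s⌉₊ := ⟨_, rfl⟩
  have hn0 : 0 < n := by rw [hn]; exact Nat.ceil_pos.2 hs
  have hn0' : (0 : ℝ) < n := by exact_mod_cast hn0
  have hsn : s ≤ n := by rw [hn]; exact Nat.le_ceil s
  set s₁ : ℝ := s / n with hs₁
  have hs10 : 0 < s₁ := by positivity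
  have hs12 : s₁ < 2 := by
    have : s₁ ≤ 1 := by rw [hs₁, div_le_one hn0']; exact hsn
    linarith
  refine ⟨fun k ξ => χ k ξ ^ n, fun k => tg_pow _ (χtg k) n, ?_, ?_⟩
  · intro k ξ h1 h2
    show χ k ξ ^ n = 1
    rw [χ1 k ξ h1 h2, one_pow]
  · intro p hp
    obtain ⟨C, hC, hc⟩ := hχ s₁ p hs10 hs12 hp
    have key : ∀ j : ℕ, ∀ (k : ℕ) (g h : 𝓢(E d, ℂ)),
        (∀ ξ, 𝓕 (h : E d → ℂ) ξ = χ k ξ ^ j * (bes (-(j * s₁)) ξ * 𝓕 (g : E d → ℂ) ξ)) →
        ∫⁻ x : E d, ‖h x‖ₑ ^ p ≤ ENNReal.ofReal ((C * ((2 : ℝ) ^ (-s₁ * p)) ^ k) ^ j) *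
          ∫⁻ x : E d, ‖g x‖ₑ ^ p := by
      intro j
      induction j with
      | zero =>
        intro k g h hh
        have e : h = g := four_inj _ _ fun ξ => by
          rw [hh ξ]
          simp [bes_zero]
        rw [e]
        simp
      | succ j ih =>
        intro k g h hh
        obtain ⟨h', hh', -⟩ := mult (fun ξ => χ k ξ ^ j * bes (-(j * s₁)) ξ)
          ((tg_pow _ (χtg k) j).mul (bes_tg _)) g
        have i1 := ih k g h' fun ξ => by rw [hh']; ring
        have i2 := hc k h' h fun ξ => by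
          rw [hh ξ, hh' ξ]
          have e : bes (-((((j + 1 : ℕ) : ℝ)) * s₁)) ξ = bes (-s₁) ξ * bes (-(j * s₁)) ξ := by
            rw [bes_mul]
            congr 1
            push_cast
            ring
          rw [e]
          ring
        refine i2.trans ((mul_le_mul' le_rfl i1).trans (le_of_eq ?_))
        rw [← mul_assoc, ← ENNReal.ofReal_mul (by positivity)]
        congr 2
        rw [pow_succ, mul_comm]
    refine ⟨C ^ n, by positivity, ?_⟩
    intro k g h hh
    have hk := key n k g h fun ξ => by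
      rw [hh ξ]
      have e : (n : ℝ) * s₁ = s := by rw [hs₁]; field_simp
      rw [e]
    refine hk.trans (le_of_eq ?_)
    congr 2
    rw [mul_pow, ← pow_mul, mul_comm k n, pow_mul]
    congr 2
    rw [← Real.rpow_natCast, ← Real.rpow_mul (by norm_num)]
    congr 1
    rw [hs₁]
    field_simp

end Pool.Agent.K9h71.RD
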