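import Pool.Agent.K9h71.RD.Stm
import Pool.Agent.K9h21.MZ

/-!
# Project RD (helper71): part MZ (written by helper21)
-/

set_option autoImplicit false

namespace Pool.Agent.K9h71.RD

theorem t_mz : S_MZ := Pool.Agent.K9h21.MZ.mz

end Pool.Agent.K9h71.RD
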