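import Pool.Agent.N303.LS.Stm6

/-!
# Project RD (helper71): randomised data for MP_ee74d2_an. Statements of the parts.
-/

set_option autoImplicit false

namespace Pool.Agent.K9h71.RD

open MeasureTheory ProbabilityTheory Pool.Agent.N303.LS
open scoped ENNReal FourierTransform RealInnerProductSpace SchwartzMap

/-- (MZ) Khintchine's inequality for independent variables with mean `0` and bounded `p`-th moments.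
Proof: induction on `s` with `|a + b|^p ≤ |a|^p + p |a|^(p-2) Re(conj a * b) + c (|a|^(p-2) |b|² + |b|^p)`
and `(σ + δ)^(p/2) ≥ σ^(p/2) + (p/4) σ^(p/2-1) δ + δ^(p/2) / 2`. -/
def S_MZ : Prop :=
  ∀ p : ℝ, 2 ≤ p → ∃ C : ℝ, 0 < C ∧
    ∀ (Ω : Type) (_ : MeasurableSpace Ω) (P : Measure Ω), IsProbabilityMeasure P →
    ∀ g : ℕ → Ω → ℂ, (∀ n, Measurable (g n)) → iIndepFun g P → (∀ n, ∫ ω, g n ω ∂P = 0) →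
    (∀ n, ∫⁻ ω, ‖g n ω‖ₑ ^ p ∂P ≤ 1) → ∀ (s : Finset ℕ) (a : ℕ → ℂ),
      ∫⁻ ω, ‖∑ n ∈ s, g n ω * a n‖ₑ ^ p ∂P ≤
        ENNReal.ofReal C * (∑ n ∈ s, ‖a n‖ₑ ^ (2 : ℝ)) ^ (p / 2)

/-- (CRD) a set with `v` elements is a `Λ(p)` set with constant `v^(1/2-1/p)` -/
def S_CRD : Prop :=
  ∀ (d : ℕ) (p : ℝ), 2 ≤ p → ∀ (T : Finset (Fin d → ℤ)) (c : (Fin d → ℤ) → ℂ),
    ∫⁻ x in {x : E d | ∀ i, x i ∈ Set.Ico (0 : ℝ) 1}, ‖∑ m ∈ T, c m *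
      Complex.exp (((2 * Real.pi * ⟪x, pt m⟫ : ℝ) : ℂ) * Complex.I)‖ₑ ^ p ≤
      ENNReal.ofReal ((T.card : ℝ) ^ (p / 2 - 1)) * (∑ m ∈ T, ‖c m‖ₑ ^ (2 : ℝ)) ^ (p / 2)

/-- (LPS) Bessel potentials of all orders on dyadic shells: from `S_LPK` with `s / n < 2` for `s`
and `χ^n` for `χ`. -/
def S_LPS : Prop :=
  ∀ (d : ℕ) (s : ℝ), 0 < s → ∃ χ : ℕ → E d → ℂ, (∀ k, (χ k).HasTemperateGrowth) ∧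
    (∀ (k : ℕ) (ξ : E d), (∃ i, (2 : ℝ) ^ k * (3 / 4) ≤ |ξ i|) →
      (∀ i, |ξ i| ≤ (2 : ℝ) ^ k * (9 / 4)) → χ k ξ = 1) ∧
    ∀ p : ℝ, 1 ≤ p → ∃ C : ℝ, 0 < C ∧ ∀ (k : ℕ) (g h : 𝓢(E d, ℂ)),
      (∀ ξ, 𝓕 (h : E d → ℂ) ξ = χ k ξ * (bes (-s) ξ * 𝓕 (g : E d → ℂ) ξ)) →
      ∫⁻ x : E d, ‖h x‖ₑ ^ p ≤ ENNReal.ofReal (C * ((2 : ℝ) ^ (-s * p)) ^ k) *
        ∫⁻ x : E d, ‖g x‖ₑ ^ p

/-- (LLV) the local estimate for blocks -/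
def S_LLV : Prop :=
  ∀ (d M : ℕ) (p : ℝ), 2 ≤ p → ∀ K : 𝓢(E d, ℂ),
    ∃ C : ℝ, 0 < C ∧ ∀ (s : Finset ℕ) (S : ℕ → Finset (Fin d → ℤ)) (a : (Fin d → ℤ) → ℂ) (Λ : ℝ),
      (∀ i j, i ≠ j → Disjoint (S i) (S j)) → 0 ≤ Λ → (∀ i, Lam p Λ (S i) a) →
      ∀ F : E d → ℂ, Integrable F → ∀ z : E d,
      ∫⁻ x in {x : E d | ∀ i, |x i - z i| ≤ 1},
        (∑ i ∈ s, ‖inv (fun ξ => psia K (S i) a ξ * F ξ) x‖ₑ ^ (2 : ℝ)) ^ (p / 2) ≤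
        ENNReal.ofReal (C * Λ ^ p) * nrg M (inv F) z ^ (p / 2)

end Pool.Agent.K9h71.RD
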